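import Pool.Agent.Lib.MP_605763_gt.Lift

namespace Pool.Agent.Lib.MP_605763_gt

lemma cd_one (d : ℕ) : cd d 1 = d := by
  induction d with
  | zero => rfl
  | succ d ih =>
    have h0 : ∀ e, cd e 0 = 0 := by
      intro e
      induction e with
      | zero => rfl
      | succ e ihe => simp [cd, ihe]
    simp only [cd, ih, Nat.reduceSub, h0]
    omega

lemma cd_lower (d : ℕ) : ∀ s t : ℕ, t = min s (2 * d) → t * (4 * d + 2) ≤ 8 * cd d s + t * t := by
  induction d with
  | zero =>
    intro s t ht
    have : t = 0 := by omega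
    simp [this]
  | succ d ih =>
    intro s t ht
    have h1 := ih s _ rfl
    have h2 := ih (s - 2) _ rfl
    have hA : t * (4 * (d + 1) + 2) ≤ 8 * (s + cd d s) + t * t := by
      rcases Nat.lt_or_ge s (2 * d + 1) with hs | hs
      · have ht1 : min s (2 * d) = s := by omega
        have ht2 : t = s := by omega
        rw [ht1] at h1
        rw [ht2]
        nlinarith
      · have ht1 : min s (2 * d) = 2 * d := by omega
        rw [ht1] at h1
        rcases Nat.lt_or_ge s (2 * d + 2) with hs2 | hs2
        · have ht2 : t = 2 * d + 1 := by omega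
          have hs3 : s = 2 * d + 1 := by omega
          rw [ht2, hs3]
          rw [hs3] at h1
          nlinarith
        · have ht2 : t = 2 * d + 2 := by omega
          rw [ht2]
          nlinarith
    have hB : t * (4 * (d + 1) + 2) ≤ 8 * (d + 1 + cd d (s - 2)) + t * t := by
      rcases Nat.lt_or_ge s 2 with hs | hs
      · interval_cases s
        · have : t = 0 := by omega
          simp [this]
        · have : t = 1 := by omega
          rw [this]
          omega
      · have ht2 : t = min (s - 2) (2 * d) + 2 := by omega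
        set u := min (s - 2) (2 * d)
        rw [ht2]
        nlinarith
    simp only [cd]
    rcases le_total (s + cd d s) (d + 1 + cd d (s - 2)) with h | h
    · rw [min_eq_left h]; exact hA
    · rw [min_eq_right h]; exact hB

lemma two_mul_choose (n : ℕ) : 2 * (n + 1).choose 2 = (n + 1) * n := by
  induction n with
  | zero => simp
  | succ n ih =>
    rw [Nat.choose_succ_succ' (n + 1) 1, mul_add, ih, Nat.choose_one_right]
    ring

lemma phi_eq {n r : ℕ} (h : r ≤ n) : 2 * phi n r + r * r = 2 * n * r + r := by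
  obtain ⟨k, rfl⟩ : ∃ k, n = r + k := ⟨n - r, by omega⟩
  have h1 := two_mul_choose (r + k)
  have h2 := two_mul_choose k
  have h3 : (k + 1).choose 2 ≤ (r + k + 1).choose 2 := Nat.choose_le_choose 2 (by omega)
  unfold phi
  have h4 : r + k - r + 1 = k + 1 := by omega
  rw [h4]
  have h5 : (r + k + 1) * (r + k) = (k + 1) * k + (2 * r * k + r * r + r) := by ring
  have h6 : 2 * (r + k) * r = 2 * r * k + 2 * (r * r) := by ring
  omega

lemma arith_small {n d m : ℕ} (hn : 3 ≤ n) (h2d : 2 * d ≤ n)
    (hm : n * (n + 1) ≤ m * (d * (d + 1))) :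
    ∀ r, 1 ≤ r → r ≤ n → phi n r ≤ m * cd d r := by
  intro r hr1 hrn
  have hphi := phi_eq hrn
  have hcd := cd_lower d r _ rfl
  obtain ⟨e, he⟩ : ∃ e, n = 2 * d + e := ⟨n - 2 * d, by omega⟩
  have hm4 : 4 ≤ m := by
    by_contra hcon
    have hm3 : m ≤ 3 := by omega
    have h1 : m * (d * (d + 1)) ≤ 3 * (d * (d + 1)) := Nat.mul_le_mul_right _ hm3
    have h2 : n * (n + 1) ≤ 3 * (d * (d + 1)) := hm.trans h1
    rw [he] at h2
    rcases Nat.lt_or_ge d 2 with hd | hd
    · interval_cases d <;> nlinarith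
    · nlinarith
  rcases Nat.lt_or_ge r (2 * d) with hr | hr
  · have hmin : min r (2 * d) = r := by omega
    rw [hmin] at hcd
    obtain ⟨f, hf⟩ : ∃ f, 2 * d = r + f := ⟨2 * d - r, by omega⟩
    obtain ⟨g, hg⟩ : ∃ g, m = 4 + g := ⟨m - 4, by omega⟩
    -- m (2d+2) ≥ 4 (2n+1-2d)
    have key : 4 * (2 * e + 2 * d + 1) ≤ m * (2 * d + 2) := by
      have hd : 0 < d := by omega
      have h1 : d * (4 * (2 * e + 2 * d + 1)) ≤ d * (m * (2 * d + 2)) := by
        have h2 : d * (m * (2 * d + 2)) = 2 * (m * (d * (d + 1))) := by ring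
        rw [h2]
        have h3 : d * (4 * (2 * e + 2 * d + 1)) ≤ 2 * (n * (n + 1)) := by
          rw [he]; nlinarith
        omega
      exact Nat.le_of_mul_le_mul_left h1 hd
    have hcd2 : r * (2 * d + 2 + f) ≤ 8 * cd d r := by
      have : r * (4 * d + 2) = r * (2 * d + 2 + f) + r * r := by
        have : 4 * d + 2 = (2 * d + 2 + f) + r := by omega
        rw [this]; ring
      omega
    have hphi2 : 2 * phi n r = r * (2 * e + 2 * d + f + 1) := by
      have : 2 * n * r + r = r * (2 * e + 2 * d + f + 1) + r * r := by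
        have : 2 * n = 2 * e + 2 * d + r + f := by omega
        rw [this]; ring
      omega
    have h5 : 4 * (2 * e + 2 * d + f + 1) ≤ m * (2 * d + 2 + f) := by
      calc 4 * (2 * e + 2 * d + f + 1) = 4 * (2 * e + 2 * d + 1) + 4 * f := by ring
        _ ≤ m * (2 * d + 2) + m * f := Nat.add_le_add key (Nat.mul_le_mul_right _ hm4)
        _ = m * (2 * d + 2 + f) := by ring
    have h6 : 8 * phi n r ≤ 8 * (m * cd d r) := by
      calc 8 * phi n r = r * (4 * (2 * e + 2 * d + f + 1)) := by
            have : 8 * phi n r = 4 * (2 * phi n r) := by ring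
            rw [this, hphi2]; ring
        _ ≤ r * (m * (2 * d + 2 + f)) := Nat.mul_le_mul_left _ h5
        _ = m * (r * (2 * d + 2 + f)) := by ring
        _ ≤ m * (8 * cd d r) := Nat.mul_le_mul_left _ hcd2
        _ = 8 * (m * cd d r) := by ring
    omega
  · have hmin : min r (2 * d) = 2 * d := by omega
    rw [hmin] at hcd
    have hcd2 : d * (d + 1) ≤ 2 * cd d r := by nlinarith
    have h7 : 2 * phi n r ≤ n * (n + 1) := by
      obtain ⟨k, hk⟩ : ∃ k, n = r + k := ⟨n - r, by omega⟩
      rw [hk] at hphi ⊢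
      nlinarith
    have h8 : 2 * phi n r ≤ 2 * (m * cd d r) := by
      calc 2 * phi n r ≤ n * (n + 1) := h7
        _ ≤ m * (d * (d + 1)) := hm
        _ ≤ m * (2 * cd d r) := Nat.mul_le_mul_left _ hcd2
        _ = 2 * (m * cd d r) := by ring
    omega

lemma arith_four {n d : ℕ} (h2d : n ≤ 2 * d) :
    ∀ r, 1 ≤ r → r ≤ n → phi n r ≤ 4 * cd d r := by
  intro r hr1 hrn
  have hphi := phi_eq hrn
  have hcd := cd_lower d r _ rfl
  have hmin : min r (2 * d) = r := by omega
  rw [hmin] at hcd
  nlinarith

lemma arith_three {n k d : ℕ} (hk : 3 * k ≤ n + 1) (hd : d + k = n) (hn : 1 ≤ n) :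
    ∀ r, 1 ≤ r → r ≤ n → phi n r ≤ 3 * cd d r := by
  intro r hr1 hrn
  have hphi := phi_eq hrn
  have hcd := cd_lower d r _ rfl
  rcases Nat.lt_or_ge r 2 with hr | hr
  · have : r = 1 := by omega
    subst this
    rw [cd_one]
    omega
  · have hmin : min r (2 * d) = r := by omega
    rw [hmin] at hcd
    have h3 : 2 * n ≤ 3 * d + 1 := by omega
    nlinarith

end Pool.Agent.Lib.MP_605763_gt
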