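import Mathlib

open Module

namespace Pool.Agent.Lib.MP_605763_gt

/-- The recursively defined lower bound for the codimension of the set of isotropic `d`-tuples
of a symmetric bilinear form of rank at least `s`. -/
def cd : ℕ → ℕ → ℕ
  | 0, _ => 0
  | d + 1, s => min (s + cd d s) (d + 1 + cd d (s - 2))

section Iso

variable {K : Type} [Field K] [Finite K]

/-- Isotropic `d`-tuples of a bilinear form. -/
abbrev Iso {V : Type*} [AddCommGroup V] [Module K V] (B : LinearMap.BilinForm K V) (d : ℕ) :=
  {a : Fin d → V // ∀ i j, B (a i) (a j) = 0}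

/-- The number of isotropic vectors of a nonzero symmetric form is at most `2 q^(n-1)`. -/
lemma card_isotropic_le {V : Type*} [AddCommGroup V] [Module K V] [Finite V]
    (h2 : (2 : K) ≠ 0) (B : LinearMap.BilinForm K V) (hB : ∀ x y, B x y = B y x) (hB0 : B ≠ 0) :
    Nat.card {a : V // B a a = 0} * Nat.card K ≤ 2 * Nat.card K ^ finrank K V := by
  classical
  have := Fintype.ofFinite V
  have := Fintype.ofFinite K
  have : Invertible (2 : K) := invertibleOfNonzero h2
  obtain ⟨v, hv⟩ := LinearMap.BilinForm.exists_bilinForm_self_ne_zero (B := B) hB0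
    ⟨fun x y => hB x y⟩
  have hv0 : v ≠ 0 := by
    rintro rfl
    exact hv (by simp)
  have hvv : B v v ≠ 0 := hv
  set L : Submodule K V := Submodule.span K {v} with hL
  have hLf : finrank K L = 1 := finrank_span_singleton hv0
  have hQ : finrank K (V ⧸ L) + 1 = finrank K V := by
    have := Submodule.finrank_quotient_add_finrank L
    rw [hLf] at this
    exact this
  have hcardQ : Nat.card (V ⧸ L) = Nat.card K ^ finrank K (V ⧸ L) := by
    have := Fintype.ofFinite (V ⧸ L)
    rw [Nat.card_eq_fintype_card, Nat.card_eq_fintype_card]
    exact Module.card_eq_pow_finrank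
  have hle : Nat.card {a : V // B a a = 0} ≤ 2 * Nat.card (V ⧸ L) := by
    have := Fintype.ofFinite (V ⧸ L)
    rw [Nat.card_eq_fintype_card, Nat.card_eq_fintype_card, Fintype.card_subtype]
    refine (Finset.card_le_mul_card_image_of_maps_to (f := fun a => L.mkQ a)
      (t := (Finset.univ : Finset (V ⧸ L))) (fun a _ => Finset.mem_univ _) 2 ?_)
    intro y _
    by_cases hne : ∃ a0 : V, B a0 a0 = 0 ∧ L.mkQ a0 = y
    · obtain ⟨a0, ha0, ha0y⟩ := hne
      have hsub : {x ∈ (Finset.univ.filter fun a : V => B a a = 0) | L.mkQ x = y} ⊆
          {a0, a0 + (-(2 * B a0 v) / B v v) • v} := by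
        intro a ha
        simp only [Finset.mem_filter, Finset.mem_univ, true_and] at ha
        obtain ⟨ha1, ha2⟩ := ha
        have hmem : a - a0 ∈ L := by
          rw [← Submodule.Quotient.mk_eq_zero, Submodule.Quotient.mk_sub, sub_eq_zero]
          exact ha2.trans ha0y.symm
        obtain ⟨t, ht⟩ := Submodule.mem_span_singleton.1 hmem
        have ha : a = a0 + t • v := by rw [ht]; abel
        have hz : t * (2 * B a0 v + t * B v v) = 0 := by
          have h1 : B a a = B a0 a0 + t * B a0 v + (t * B v a0 + t * (t * B v v)) := by
            rw [ha]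
            simp [map_add, map_smul, LinearMap.add_apply, LinearMap.smul_apply]
            ring
          rw [ha1, ha0, hB v a0] at h1
          linear_combination -h1
        rcases mul_eq_zero.1 hz with h | h
        · simp [ha, h]
        · have : t = -(2 * B a0 v) / B v v := by
            field_simp
            linear_combination h
          simp [ha, ← this]
      exact (Finset.card_le_card hsub).trans Finset.card_le_two
    · have : {x ∈ (Finset.univ.filter fun a : V => B a a = 0) | L.mkQ x = y} = ∅ := by
        ext a
        simp only [Finset.mem_filter, Finset.mem_univ, true_and, Finset.notMem_empty, iff_false]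
        exact fun h => hne ⟨a, h⟩
      rw [this]; simp
  calc Nat.card {a : V // B a a = 0} * Nat.card K
      ≤ 2 * Nat.card (V ⧸ L) * Nat.card K := Nat.mul_le_mul_right _ hle
    _ = 2 * Nat.card K ^ finrank K V := by
        rw [hcardQ, ← hQ, pow_succ]; ring

lemma natCard_eq_pow {V : Type*} [AddCommGroup V] [Module K V] [Finite V] :
    Nat.card V = Nat.card K ^ finrank K V := by
  have := Fintype.ofFinite V
  have := Fintype.ofFinite K
  rw [Nat.card_eq_fintype_card, Nat.card_eq_fintype_card]
  exact Module.card_eq_pow_finrank

omit [Finite K] in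
lemma iso_succ {V : Type*} [AddCommGroup V] [Module K V] [Fintype V]
    (B : LinearMap.BilinForm K V) (d : ℕ) :
    Nat.card (Iso B (d + 1)) =
      ∑ a : V, Nat.card {b : Fin d → V // ∀ i j, B ((Fin.cons a b : Fin (d+1) → V) i)
        ((Fin.cons a b : Fin (d+1) → V) j) = 0} := by
  rw [← Nat.card_sigma]
  refine Nat.card_congr
    { toFun := fun c => ⟨c.1 0, ⟨Fin.tail c.1, ?_⟩⟩
      invFun := fun p => ⟨Fin.cons p.1 p.2.1, p.2.2⟩
      left_inv := ?_
      right_inv := ?_ }
  · rw [Fin.cons_self_tail]; exact c.2
  · intro c
    apply Subtype.ext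
    exact Fin.cons_self_tail c.1
  · rintro ⟨a, b, hb⟩
    rfl

/-- Main count: isotropic `d`-tuples. -/
theorem iso_count (h2 : (2 : K) ≠ 0) (d : ℕ) : ∀ (V : Type) [AddCommGroup V] [Module K V]
    [Finite V] (B : LinearMap.BilinForm K V) (_ : ∀ x y, B x y = B y x) (s : ℕ)
    (_ : s + finrank K (LinearMap.ker B) ≤ finrank K V),
    Nat.card (Iso B d) * Nat.card K ^ cd d s ≤ 3 ^ d * Nat.card K ^ (finrank K V * d) := by
  induction d with
  | zero =>
    intro V _ _ _ B hB s hs
    simp [cd]
  | succ d ih =>
    intro V _ _ _ B hB s hs
    classical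
    have := Fintype.ofFinite V
    have := Fintype.ofFinite K
    set q := Nat.card K with hq
    have hq1 : 1 ≤ q := Nat.card_pos
    set n := finrank K V with hn
    set z := finrank K (LinearMap.ker B) with hz
    rw [iso_succ]
    -- bound for each first vector
    have hker : ∀ a : V, a ∈ LinearMap.ker B →
        Nat.card {b : Fin d → V // ∀ i j, B ((Fin.cons a b : Fin (d+1) → V) i)
        ((Fin.cons a b : Fin (d+1) → V) j) = 0} * q ^ cd (d+1) s ≤ q ^ s * (3 ^ d * q ^ (n * d)) := by
      intro a ha
      have h1 : Nat.card {b : Fin d → V // ∀ i j, B ((Fin.cons a b : Fin (d+1) → V) i)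
        ((Fin.cons a b : Fin (d+1) → V) j) = 0} ≤ Nat.card (Iso B d) := by
        refine Nat.card_le_card_of_injective
          (fun b => (⟨b.1, fun i j => ?_⟩ : Iso B d)) ?_
        · have := b.2 i.succ j.succ
          simpa using this
        · intro b b' h
          apply Subtype.ext
          exact congrArg (fun c : Iso B d => c.1) h
      have h2 := ih V B hB s hs
      have h3 : cd (d+1) s ≤ s + cd d s := min_le_left _ _
      calc _ ≤ Nat.card (Iso B d) * q ^ (s + cd d s) :=
            Nat.mul_le_mul h1 (Nat.pow_le_pow_right hq1 h3)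
        _ = q ^ s * (Nat.card (Iso B d) * q ^ cd d s) := by rw [pow_add]; ring
        _ ≤ q ^ s * (3 ^ d * q ^ (n * d)) := Nat.mul_le_mul_left _ h2
    have hnonker : ∀ a : V, a ∉ LinearMap.ker B → B a a = 0 →
        Nat.card {b : Fin d → V // ∀ i j, B ((Fin.cons a b : Fin (d+1) → V) i)
        ((Fin.cons a b : Fin (d+1) → V) j) = 0} * q ^ cd (d+1) s ≤
          q ^ (d + 1) * (3 ^ d * q ^ ((n - 1) * d)) := by
      intro a ha haa
      set H : Submodule K V := LinearMap.ker (B a) with hH
      set B' : LinearMap.BilinForm K H := B.domRestrict₁₂ H H with hB'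
      have hBa : B a ≠ 0 := fun h => ha (LinearMap.mem_ker.2 h)
      have hHf : finrank K H + 1 = n := by
        have h1 : finrank K (LinearMap.range (B a)) + finrank K H = n :=
          LinearMap.finrank_range_add_finrank_ker (B a)
        have h2 : finrank K (LinearMap.range (B a)) = 1 := by
          rw [LinearMap.range_eq_top.2 (LinearMap.surjective hBa)]
          simp
        omega
      have h1 : Nat.card {b : Fin d → V // ∀ i j, B ((Fin.cons a b : Fin (d+1) → V) i)
        ((Fin.cons a b : Fin (d+1) → V) j) = 0} ≤ Nat.card (Iso B' d) := by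
        refine Nat.card_le_card_of_injective
          (fun b => (⟨fun i => ⟨b.1 i, ?_⟩, fun i j => ?_⟩ : Iso B' d)) ?_
        · have := b.2 0 i.succ
          simpa [hH] using this
        · have := b.2 i.succ j.succ
          simpa [hB', LinearMap.domRestrict₁₂_apply] using this
        · intro b b' h
          apply Subtype.ext
          funext i
          have := congrArg (fun c => ((c : Iso B' d).1 i : V)) h
          simpa using this
      have hkerle : finrank K (LinearMap.ker B') ≤ z + 1 := by
        have hmap : (LinearMap.ker B').map H.subtype ≤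
            LinearMap.ker B ⊔ Submodule.span K {a} := by
          rintro x ⟨y, hy, rfl⟩
          have hy' : ∀ w : H, B y w = 0 := by
            intro w
            have := LinearMap.congr_fun (LinearMap.mem_ker.1 hy) w
            simpa [hB', LinearMap.domRestrict₁₂_apply] using this
          have hle : LinearMap.ker (B a) ≤ LinearMap.ker (B (y : V)) := by
            intro w hw
            exact hy' ⟨w, hw⟩
          obtain ⟨c, hc⟩ : ∃ c : K, B (y : V) = c • B a := by
            by_contra hcon
            push Not at hcon
            obtain ⟨u, hu⟩ : ∃ u, B a u ≠ 0 := by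
              by_contra hh
              push Not at hh
              exact hBa (LinearMap.ext hh)
            refine hcon (B (y : V) u / B a u) (LinearMap.ext fun w => ?_)
            have hw : w - (B a w / B a u) • u ∈ LinearMap.ker (B a) := by
              simp [LinearMap.mem_ker, hu]
            have hw2 := LinearMap.mem_ker.1 (hle hw)
            simp only [map_sub, map_smul, smul_eq_mul] at hw2
            simp only [LinearMap.smul_apply, smul_eq_mul]
            field_simp
            field_simp at hw2
            linear_combination hw2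
          have hyc : (y : V) - c • a ∈ LinearMap.ker B := by
            rw [LinearMap.mem_ker, map_sub, map_smul, hc, sub_self]
          have : (H.subtype y) = ((y : V) - c • a) + c • a := by simp
          rw [this]
          exact Submodule.add_mem_sup hyc (Submodule.smul_mem _ _ (Submodule.mem_span_singleton_self a))
        have h5 := Submodule.finrank_mono hmap
        have h6 : finrank K ((LinearMap.ker B').map H.subtype) = finrank K (LinearMap.ker B') :=
          Submodule.finrank_map_subtype_eq H (LinearMap.ker B')
        have h7 : finrank K ↥(LinearMap.ker B ⊔ Submodule.span K {a}) ≤ z + 1 := by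
          have h8 := Submodule.finrank_add_le_finrank_add_finrank (LinearMap.ker B)
            (Submodule.span K {a})
          have h9 : finrank K (Submodule.span K {a}) ≤ 1 := by
            have := finrank_span_le_card (R := K) ({a} : Set V)
            simpa using this
          omega
        omega
      have hkerle2 : finrank K (LinearMap.ker B') ≤ finrank K H := Submodule.finrank_le _
      have h2 := ih H B' (fun x y => hB x y) (s - 2) (by omega)
      have h3 : cd (d+1) s ≤ d + 1 + cd d (s - 2) := min_le_right _ _
      have hHn : finrank K H = n - 1 := by omega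
      rw [hHn] at h2
      calc _ ≤ Nat.card (Iso B' d) * q ^ (d + 1 + cd d (s - 2)) :=
            Nat.mul_le_mul h1 (Nat.pow_le_pow_right hq1 h3)
        _ = q ^ (d + 1) * (Nat.card (Iso B' d) * q ^ cd d (s - 2)) := by rw [pow_add]; ring
        _ ≤ q ^ (d + 1) * (3 ^ d * q ^ ((n - 1) * d)) := Nat.mul_le_mul_left _ h2
    have hzero : ∀ a : V, B a a ≠ 0 →
        Nat.card {b : Fin d → V // ∀ i j, B ((Fin.cons a b : Fin (d+1) → V) i)
        ((Fin.cons a b : Fin (d+1) → V) j) = 0} = 0 := by
      intro a haa
      rw [Nat.card_eq_zero]
      left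
      refine ⟨fun b => haa ?_⟩
      have := b.2 0 0
      simpa using this
    rw [Finset.sum_mul]
    have hsplit : ∀ a : V, Nat.card {b : Fin d → V // ∀ i j, B ((Fin.cons a b : Fin (d+1) → V) i)
        ((Fin.cons a b : Fin (d+1) → V) j) = 0} * q ^ cd (d+1) s ≤
        (if a ∈ LinearMap.ker B then q ^ s * (3 ^ d * q ^ (n * d)) else 0) +
        (if B ≠ 0 ∧ B a a = 0 then q ^ (d + 1) * (3 ^ d * q ^ ((n - 1) * d)) else 0) := by
      intro a
      by_cases ha : a ∈ LinearMap.ker B
      · rw [if_pos ha]
        exact (hker a ha).trans (Nat.le_add_right _ _)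
      · by_cases haa : B a a = 0
        · have hB0 : B ≠ 0 := by
            rintro rfl
            exact ha (by simp)
          rw [if_neg ha, if_pos ⟨hB0, haa⟩, zero_add]
          exact hnonker a ha haa
        · rw [hzero a haa]; simp
    refine (Finset.sum_le_sum fun a _ => hsplit a).trans ?_
    rw [Finset.sum_add_distrib, Finset.sum_ite, Finset.sum_ite]
    simp only [Finset.sum_const_zero, add_zero, Finset.sum_const, smul_eq_mul]
    have hA : (Finset.univ.filter fun a : V => a ∈ LinearMap.ker B).card = q ^ z := by
      rw [← Fintype.card_subtype, ← Nat.card_eq_fintype_card]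
      exact natCard_eq_pow (V := LinearMap.ker B)
    rw [hA]
    have hA2 : q ^ z * (q ^ s * (3 ^ d * q ^ (n * d))) ≤ 3 ^ d * q ^ (n * (d + 1)) := by
      calc q ^ z * (q ^ s * (3 ^ d * q ^ (n * d))) = 3 ^ d * (q ^ (s + z) * q ^ (n * d)) := by
            rw [pow_add]; ring
        _ ≤ 3 ^ d * (q ^ n * q ^ (n * d)) := by
            refine Nat.mul_le_mul_left _ (Nat.mul_le_mul_right _ ?_)
            exact Nat.pow_le_pow_right hq1 hs
        _ = 3 ^ d * q ^ (n * (d + 1)) := by rw [← pow_add]; ring_nf
    have hC : (Finset.univ.filter fun a : V => B ≠ 0 ∧ B a a = 0).card *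
        (q ^ (d + 1) * (3 ^ d * q ^ ((n - 1) * d))) ≤ 2 * (3 ^ d * q ^ (n * (d + 1))) := by
      by_cases hB0 : B = 0
      · simp [hB0]
      · have h10 := card_isotropic_le h2 B hB hB0
        have hcard : (Finset.univ.filter fun a : V => B ≠ 0 ∧ B a a = 0).card =
            Nat.card {a : V // B a a = 0} := by
          rw [Nat.card_eq_fintype_card, Fintype.card_subtype]
          congr 1
          ext a
          simp [hB0]
        rw [hcard]
        have hn1 : 1 ≤ n := by
          by_contra hcon
          have : finrank K V = 0 := by omega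
          have hs : Subsingleton V := Module.finrank_zero_iff.1 this
          apply hB0
          ext x
          rw [Subsingleton.elim x 0]; simp
        have e : (n - 1) * d + d = n * d := by
          obtain ⟨k, hk⟩ : ∃ k, n = k + 1 := ⟨n - 1, by omega⟩
          rw [hk]; simp; ring
        calc Nat.card {a : V // B a a = 0} * (q ^ (d + 1) * (3 ^ d * q ^ ((n - 1) * d)))
            = (Nat.card {a : V // B a a = 0} * q) * (3 ^ d * q ^ ((n - 1) * d + d)) := by
              rw [pow_add, pow_succ]; ring
          _ ≤ (2 * q ^ n) * (3 ^ d * q ^ ((n - 1) * d + d)) := Nat.mul_le_mul_right _ h10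
          _ = 2 * (3 ^ d * q ^ (n * (d + 1))) := by
              rw [e]; rw [mul_add n d 1, pow_add, mul_one]; ring
    calc _ ≤ 3 ^ d * q ^ (n * (d + 1)) + 2 * (3 ^ d * q ^ (n * (d + 1))) := add_le_add hA2 hC
      _ = 3 ^ (d + 1) * q ^ (n * (d + 1)) := by rw [pow_succ]; ring

end Iso

end Pool.Agent.Lib.MP_605763_gt
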