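import Pool.Agent.Lib.MP_605763_gt.Count

open Module

namespace Pool.Agent.Lib.MP_605763_gt

/-- Number of entries of a symmetric `n × n` matrix meeting a given set of `r` rows. -/
def phi (n r : ℕ) : ℕ := (n + 1).choose 2 - (n - r + 1).choose 2

section

variable {K : Type} {n : ℕ}

lemma symm_out (M : Matrix (Fin n) (Fin n) K) (hM : M.IsSymm) (i j : Fin n) :
    M (Quot.out s(i, j)).1 (Quot.out s(i, j)).2 = M i j := by
  have h : s((Quot.out s(i, j)).1, (Quot.out s(i, j)).2) = s(i, j) := Quot.out_eq s(i, j)
  rcases Sym2.eq_iff.1 h with ⟨h1, h2⟩ | ⟨h1, h2⟩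
  · rw [h1, h2]
  · rw [h1, h2]; exact hM.apply i j

variable [Field K]

lemma exists_rowset (M : Matrix (Fin n) (Fin n) K) :
    ∃ I : Finset (Fin n), I.card = M.rank ∧
      ∀ l, M l ∈ Submodule.span K ((fun i => M i) '' (I : Set (Fin n))) := by
  classical
  obtain ⟨κ, a, ha, hsp, hli⟩ := exists_linearIndependent' K (fun i : Fin n => M i)
  have : Finite κ := Finite.of_injective a ha
  have := Fintype.ofFinite κ
  refine ⟨Finset.univ.map ⟨a, ha⟩, ?_, ?_⟩
  · rw [Finset.card_map, Finset.card_univ, Matrix.rank_eq_finrank_span_row]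
    have h1 := finrank_span_eq_card hli
    rw [← h1, hsp]
    rfl
  · intro l
    have : (fun i => M i) '' ((Finset.univ.map ⟨a, ha⟩ : Finset (Fin n)) : Set (Fin n)) =
        Set.range ((fun i : Fin n => M i) ∘ a) := by
      rw [Finset.coe_map, Set.range_comp]
      simp
    rw [this, hsp]
    exact Submodule.subset_span ⟨l, rfl⟩

/-- A symmetric matrix whose rows are spanned by the rows in `I` is determined by these rows. -/
lemma eq_of_rows {M M' : Matrix (Fin n) (Fin n) K} (hM : M.IsSymm) (hM' : M'.IsSymm)
    (I : Finset (Fin n))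
    (h : ∀ l, M l ∈ Submodule.span K ((fun i => M i) '' (I : Set (Fin n))))
    (h' : ∀ l, M' l ∈ Submodule.span K ((fun i => M' i) '' (I : Set (Fin n))))
    (heq : ∀ i ∈ I, ∀ j, M i j = M' i j) : M = M' := by
  have himg : (fun i => M i) '' (I : Set (Fin n)) = (fun i => M' i) '' (I : Set (Fin n)) := by
    apply Set.image_congr
    intro i hi
    funext j
    exact heq i hi j
  have hrange : ∀ v ∈ Submodule.span K ((fun i => M i) '' (I : Set (Fin n))),
      ∃ y, v = M.mulVec y := by
    intro v hv
    induction hv using Submodule.span_induction with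
    | mem x hx =>
      obtain ⟨i, -, rfl⟩ := hx
      refine ⟨Pi.single i 1, ?_⟩
      rw [Matrix.mulVec_single_one]
      funext j
      exact (hM.apply i j).symm
    | zero => exact ⟨0, by simp⟩
    | add x y _ _ hx hy =>
      obtain ⟨a, rfl⟩ := hx
      obtain ⟨b, rfl⟩ := hy
      exact ⟨a + b, by rw [Matrix.mulVec_add]⟩
    | smul c x _ hx =>
      obtain ⟨a, rfl⟩ := hx
      exact ⟨c • a, by rw [Matrix.mulVec_smul]⟩
  ext j k
  have hmem : M j - M' j ∈ Submodule.span K ((fun i => M i) '' (I : Set (Fin n))) := by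
    refine Submodule.sub_mem _ (h j) ?_
    rw [himg]; exact h' j
  obtain ⟨y, hy⟩ := hrange _ hmem
  have hI : ∀ i ∈ I, (M.mulVec y) i = 0 := by
    intro i hi
    rw [← hy]
    have h1 : M j i = M i j := hM.apply i j
    have h2 : M' j i = M' i j := hM'.apply i j
    simp [h1, h2, heq i hi j]
  have hall : ∀ l, (M.mulVec y) l = 0 := by
    intro l
    have key : ∀ v ∈ Submodule.span K ((fun i => M i) '' (I : Set (Fin n))), v ⬝ᵥ y = 0 := by
      intro v hv
      induction hv using Submodule.span_induction with
      | mem x hx =>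
        obtain ⟨i, hi, rfl⟩ := hx
        exact hI i hi
      | zero => simp
      | add x y' _ _ hx hy => rw [add_dotProduct, hx, hy, add_zero]
      | smul c x _ hx => rw [smul_dotProduct, hx, smul_zero]
    exact key _ (h l)
  have : (M j - M' j) k = 0 := by rw [hy]; exact hall k
  exact sub_eq_zero.1 this

end

section

variable {K : Type} [Field K] [Finite K] {n : ℕ}

lemma card_rows_le (I : Finset (Fin n)) :
    Nat.card {M : Matrix (Fin n) (Fin n) K // M.IsSymm ∧
      ∀ l, M l ∈ Submodule.span K ((fun i => M i) '' (I : Set (Fin n)))} ≤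
      Nat.card K ^ phi n I.card := by
  classical
  set Z : Finset (Sym2 (Fin n)) := Finset.univ \ (Iᶜ).sym2 with hZ
  have hcardZ : Z.card = phi n I.card := by
    rw [hZ, Finset.card_sdiff_of_subset (Finset.subset_univ _), Finset.card_sym2,
      Finset.card_compl, Fintype.card_fin, phi]
    congr 1
    rw [← Finset.sym2_univ, Finset.card_sym2, Finset.card_univ, Fintype.card_fin]
  have hfun : Nat.card (Z → K) = Nat.card K ^ phi n I.card := by
    rw [Nat.card_fun, ← hcardZ]
    simp
  rw [← hfun]
  refine Nat.card_le_card_of_injective (fun M z => M.1 (Quot.out z.1).1 (Quot.out z.1).2) ?_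
  rintro ⟨M, hM, h⟩ ⟨M', hM', h'⟩ heq
  apply Subtype.ext
  refine eq_of_rows hM hM' I h h' ?_
  intro i hi j
  have hz : s(i, j) ∈ Z := by
    rw [hZ, Finset.mem_sdiff, Finset.mem_sym2_iff]
    refine ⟨Finset.mem_univ _, fun hcon => ?_⟩
    have := hcon i (Sym2.mem_mk_left i j)
    exact (Finset.mem_compl.1 this) hi
  have := congrFun heq ⟨s(i, j), hz⟩
  simp only at this
  rwa [symm_out M hM, symm_out M' hM'] at this

omit [Finite K] in
lemma rank_add_ker_le (M : Matrix (Fin n) (Fin n) K) (hM : M.IsSymm) :
    M.rank + finrank K (LinearMap.ker (Matrix.toBilin' M)) ≤ finrank K (Fin n → K) := by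
  have h1 : M.rank + finrank K (LinearMap.ker M.mulVecLin) = finrank K (Fin n → K) :=
    LinearMap.finrank_range_add_finrank_ker M.mulVecLin
  have h2 : LinearMap.ker (Matrix.toBilin' M) ≤ LinearMap.ker M.mulVecLin := by
    intro v hv
    rw [LinearMap.mem_ker] at hv ⊢
    funext i
    have h3 := LinearMap.congr_fun hv (Pi.single i 1)
    rw [Matrix.toBilin'_apply', Matrix.mulVec_single_one] at h3
    simp only [Matrix.mulVecLin_apply, Pi.zero_apply]
    have h4 : M.mulVec v i = v ⬝ᵥ M.col i := by
      rw [dotProduct_comm]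
      have h5 : (fun j => M i j) = M.col i := funext fun j => (hM.apply i j).symm
      rw [← h5]
      rfl
    rw [h4, h3]
    rfl
  have h3 := Submodule.finrank_mono h2
  omega

lemma exists_good_tuple (d m : ℕ) (h2 : (2 : K) ≠ 0)
    (h : ∀ r, 1 ≤ r → r ≤ n → phi n r ≤ m * cd d r)
    (hq : 2 ^ n * 3 ^ (d * m) + 1 < Nat.card K) :
    ∃ A : Fin m → Fin d → Fin n → K, ∀ M : Matrix (Fin n) (Fin n) K, M.IsSymm →
      (∀ j i i', A j i ⬝ᵥ M.mulVec (A j i') = 0) → M = 0 := by
  classical
  by_contra hcon
  push Not at hcon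
  have := Fintype.ofFinite K
  set q := Nat.card K with hqdef
  have hq1 : 1 ≤ q := Nat.card_pos
  let s : Finset (Fin m → Fin d → Fin n → K) := Finset.univ
  let t : Finset (Matrix (Fin n) (Fin n) K) := Finset.univ.filter fun M => M.IsSymm ∧ M ≠ 0
  let r : (Fin m → Fin d → Fin n → K) → Matrix (Fin n) (Fin n) K → Prop :=
    fun A M => ∀ j i i', A j i ⬝ᵥ M.mulVec (A j i') = 0
  have key := Finset.sum_card_bipartiteAbove_eq_sum_card_bipartiteBelow (s := s) (t := t) r
  -- lower bound
  have hs : s.card = q ^ (n * d * m) := by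
    simp only [s, Finset.card_univ, Fintype.card_fun, Fintype.card_fin]
    rw [hqdef, Nat.card_eq_fintype_card, ← pow_mul, ← pow_mul, mul_assoc]
  have hlow : q ^ (n * d * m) * (q - 1) ≤ ∑ A ∈ s, (t.bipartiteAbove r A).card := by
    rw [← hs, ← smul_eq_mul, ← Finset.sum_const]
    refine Finset.sum_le_sum fun A _ => ?_
    obtain ⟨M, hM, hMA, hM0⟩ := hcon A
    have h3 : (Finset.univ.filter fun c : K => c ≠ 0).card = q - 1 := by
      rw [Finset.filter_ne', Finset.card_erase_of_mem (Finset.mem_univ _), Finset.card_univ,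
        hqdef, Nat.card_eq_fintype_card]
    rw [← h3]
    refine Finset.card_le_card_of_injOn (fun c => c • M) ?_ ?_
    · intro c hc
      simp only [Finset.coe_filter, Finset.mem_univ, true_and, Set.mem_ofPred_eq] at hc
      simp only [Finset.coe_bipartiteAbove, Set.mem_ofPred_eq, t, Finset.mem_filter,
        Finset.mem_univ, true_and, r]
      refine ⟨⟨hM.smul c, smul_ne_zero hc hM0⟩, fun j i i' => ?_⟩
      rw [Matrix.smul_mulVec, dotProduct_smul, hMA j i i', smul_zero]
    · intro c _ c' _ hcc
      exact smul_left_injective K hM0 hcc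
  -- upper bound
  have hbelow : ∀ M : Matrix (Fin n) (Fin n) K, (s.bipartiteBelow r M).card =
      (Nat.card (Iso (Matrix.toBilin' M) d)) ^ m := by
    intro M
    have h4 : s.bipartiteBelow r M = Fintype.piFinset (fun _ : Fin m =>
        Finset.univ.filter fun a : Fin d → Fin n → K => ∀ i i', a i ⬝ᵥ M.mulVec (a i') = 0) := by
      ext A
      simp [s, r, Finset.mem_bipartiteBelow]
    rw [h4, Fintype.card_piFinset_const, Nat.card_eq_fintype_card, Fintype.card_subtype]
    congr 2
    ext a
    simp [Matrix.toBilin'_apply']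
  choose! I hIcard hIspan using fun M : Matrix (Fin n) (Fin n) K => exists_rowset M
  have hup : ∑ M ∈ t, (s.bipartiteBelow r M).card ≤ 2 ^ n * (3 ^ d * q ^ (n * d)) ^ m := by
    rw [← Finset.sum_fiberwise t I]
    have hI : ∀ J ∈ (Finset.univ : Finset (Finset (Fin n))),
        ∑ M ∈ t with I M = J, (s.bipartiteBelow r M).card ≤ (3 ^ d * q ^ (n * d)) ^ m := by
      intro J _
      have hmul : (∑ M ∈ t with I M = J, (s.bipartiteBelow r M).card) * q ^ phi n J.card ≤
          (3 ^ d * q ^ (n * d)) ^ m * q ^ phi n J.card := by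
        rw [Finset.sum_mul]
        have hterm : ∀ M ∈ t.filter (fun M => I M = J),
            (s.bipartiteBelow r M).card * q ^ phi n J.card ≤ (3 ^ d * q ^ (n * d)) ^ m := by
          intro M hM
          simp only [t, Finset.mem_filter, Finset.mem_univ, true_and] at hM
          obtain ⟨⟨hMs, hM0⟩, hMJ⟩ := hM
          have hr : J.card = M.rank := by rw [← hMJ]; exact hIcard M
          have hr1 : 1 ≤ M.rank := by
            rw [Nat.one_le_iff_ne_zero]
            intro h0
            apply hM0
            have h10 : J = ∅ := Finset.card_eq_zero.1 (hr.trans h0)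
            ext l k
            have h11 := hIspan M l
            rw [hMJ, h10] at h11
            simp only [Finset.coe_empty, Set.image_empty, Submodule.span_empty,
              Submodule.mem_bot] at h11
            rw [h11]; rfl
          have hrn : M.rank ≤ n := by
            have := M.rank_le_width
            simpa using this
          have h5 := iso_count h2 d (Fin n → K) (Matrix.toBilin' M) (by
            intro x y
            rw [Matrix.toBilin'_apply', Matrix.toBilin'_apply', Matrix.dotProduct_mulVec,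
              dotProduct_comm, ← Matrix.mulVec_transpose, hMs.eq]) M.rank (rank_add_ker_le M hMs)
          rw [Module.finrank_fin_fun] at h5
          rw [hbelow, hr]
          calc Nat.card (Iso (Matrix.toBilin' M) d) ^ m * q ^ phi n M.rank
              ≤ Nat.card (Iso (Matrix.toBilin' M) d) ^ m * q ^ (m * cd d M.rank) := by
                refine Nat.mul_le_mul_left _ (Nat.pow_le_pow_right hq1 (h _ hr1 hrn))
            _ = (Nat.card (Iso (Matrix.toBilin' M) d) * q ^ cd d M.rank) ^ m := by
                rw [mul_pow, ← pow_mul, mul_comm m]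
            _ ≤ (3 ^ d * q ^ (n * d)) ^ m := Nat.pow_le_pow_left h5 m
        refine (Finset.sum_le_card_nsmul _ _ _ hterm).trans ?_
        rw [smul_eq_mul, mul_comm]
        refine Nat.mul_le_mul_left _ ?_
        refine le_trans ?_ (card_rows_le (K := K) J)
        rw [Nat.card_eq_fintype_card, Fintype.card_subtype]
        refine Finset.card_le_card ?_
        intro M hM
        simp only [t, Finset.mem_filter, Finset.mem_univ, true_and] at hM ⊢
        obtain ⟨⟨hMs, hM0⟩, hMJ⟩ := hM
        refine ⟨hMs, ?_⟩
        rw [← hMJ]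
        exact hIspan M
      exact Nat.le_of_mul_le_mul_right hmul (by positivity)
    refine (Finset.sum_le_card_nsmul _ _ _ hI).trans ?_
    rw [Finset.card_univ, Fintype.card_finset, Fintype.card_fin, smul_eq_mul]
  rw [key] at hlow
  have h6 := hlow.trans hup
  have h7 : (3 ^ d * q ^ (n * d)) ^ m = 3 ^ (d * m) * q ^ (n * d * m) := by
    rw [mul_pow, ← pow_mul, ← pow_mul]
  rw [h7] at h6
  have h8 : q ^ (n * d * m) * (q - 1) ≤ q ^ (n * d * m) * (2 ^ n * 3 ^ (d * m)) := by
    calc _ ≤ _ := h6
      _ = _ := by ring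
  have h9 := Nat.le_of_mul_le_mul_left h8 (by positivity)
  omega

end

end Pool.Agent.Lib.MP_605763_gt
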