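import Mathlib

open MeasureTheory

namespace Pool.Agent.Lib.MP_605763_gt

section General

/-! In this section `V` is a Euclidean space (a finite-dimensional real inner product space) with
its Borel structure; `volume` is Lebesgue measure on `V`. -/

variable {V : Type} [NormedAddCommGroup V] [InnerProductSpace ℝ V] [FiniteDimensional ℝ V]
  [MeasurableSpace V] [BorelSpace V]

/-- Lebesgue measure on a linear subspace `S` of `V` (itself a Euclidean space). -/
noncomputable abbrev leb (S : Submodule ℝ V) : Measure S := volume

/-- The X-ray of `A` parallel to the linear subspace `S`: the function on the orthogonal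
complement of `S` sending `x` to the Lebesgue measure of `A ∩ (S + x)`, that is the Lebesgue
measure, in the Euclidean space `S`, of the set of all `s ∈ S` with `s + x ∈ A`. -/
noncomputable def xray (S : Submodule ℝ V) (A : Set V) (x : Sᗮ) : ENNReal :=
  leb S {s : S | (s : V) + (x : V) ∈ A}

/-- Bounded Lebesgue measurable sets (the measurable sets of the problem). -/
def IsMeas (A : Set V) : Prop :=
  NullMeasurableSet A volume ∧ Bornology.IsBounded A

omit [FiniteDimensional ℝ V] [MeasurableSpace V] [BorelSpace V] in
/-- Ellipsoids: images of the closed unit ball under nonsingular affine maps. -/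
def IsEllipsoid (A : Set V) : Prop :=
  ∃ f : V ≃ᵃ[ℝ] V, A = f '' Metric.closedBall 0 1

/-- `A` is determined among measurable sets by its X-rays parallel to the members of `𝒮`;
X-rays are compared pointwise. -/
def Determined (𝒮 : Finset (Submodule ℝ V)) (A : Set V) : Prop :=
  ∀ A' : Set V, IsMeas A' → (∀ S ∈ 𝒮, xray S A' = xray S A) → A' =ᵐ[volume] A

/-- `A` is determined among measurable sets by its X-rays parallel to the members of `𝒮`;
X-rays are compared almost everywhere. -/
def DeterminedAE (𝒮 : Finset (Submodule ℝ V)) (A : Set V) : Prop :=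
  ∀ A' : Set V, IsMeas A' → (∀ S ∈ 𝒮, xray S A' =ᵐ[leb Sᗮ] xray S A) → A' =ᵐ[volume] A

variable (V)

/-- `N(n,k)` for the Euclidean space `V` of dimension `n`: the least number of `k`-dimensional
subspaces such that every ellipsoid is determined among measurable sets by its X-rays parallel
to them, and `⊤` if there is no such number. X-rays are compared pointwise. -/
noncomputable def leastXrays (k : ℕ) : ℕ∞ :=
  sInf {m : ℕ∞ | ∃ 𝒮 : Finset (Submodule ℝ V), (𝒮.card : ℕ∞) = m ∧
    (∀ S ∈ 𝒮, Module.finrank ℝ S = k) ∧ ∀ A : Set V, IsEllipsoid A → Determined 𝒮 A}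

/-- The same number when X-rays are compared almost everywhere. -/
noncomputable def leastXraysAE (k : ℕ) : ℕ∞ :=
  sInf {m : ℕ∞ | ∃ 𝒮 : Finset (Submodule ℝ V), (𝒮.card : ℕ∞) = m ∧
    (∀ S ∈ 𝒮, Module.finrank ℝ S = k) ∧ ∀ A : Set V, IsEllipsoid A → DeterminedAE 𝒮 A}

end General

end Pool.Agent.Lib.MP_605763_gt
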