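import Pool.Agent.Lib.MP_605763_gt.XRay

open MeasureTheory Module

namespace Pool.Agent.Lib.MP_605763_gt

variable {n : ℕ}

/-- The operator which is diagonal in the orthonormal basis `b` with diagonal entries `g`. -/
noncomputable def dg (b : OrthonormalBasis (Fin n) ℝ (E n)) (g : Fin n → ℝ) :
    E n →ₗ[ℝ] E n := b.toBasis.constr ℝ (fun j => g j • b j)

lemma dg_basis (b : OrthonormalBasis (Fin n) ℝ (E n)) (g : Fin n → ℝ) (j : Fin n) :
    dg b g (b j) = g j • b j := by
  have := b.toBasis.constr_basis ℝ (fun j => g j • b j) j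
  rw [OrthonormalBasis.coe_toBasis] at this
  exact this

lemma dg_ext (b : OrthonormalBasis (Fin n) ℝ (E n)) {f g : E n →ₗ[ℝ] E n}
    (h : ∀ j, f (b j) = g (b j)) : f = g :=
  b.toBasis.ext (fun j => by simpa using h j)

lemma dg_comp (b : OrthonormalBasis (Fin n) ℝ (E n)) (g h : Fin n → ℝ) (x : E n) :
    dg b g (dg b h x) = dg b (fun j => g j * h j) x := by
  have : dg b g ∘ₗ dg b h = dg b (fun j => g j * h j) := by
    apply dg_ext b
    intro j
    simp only [LinearMap.comp_apply, dg_basis, map_smul, smul_smul]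
    rw [mul_comm]
  exact LinearMap.congr_fun this x

lemma inner_dg (b : OrthonormalBasis (Fin n) ℝ (E n)) (g : Fin n → ℝ) (z w : E n) :
    inner ℝ (dg b g z) w = ∑ j, g j * (inner ℝ (b j) z * inner ℝ (b j) w) := by
  conv_lhs => rw [← b.sum_repr' z]
  rw [map_sum, sum_inner]
  refine Finset.sum_congr rfl fun j _ => ?_
  rw [map_smul, dg_basis, inner_smul_left, inner_smul_left]
  simp only [conj_trivial]
  ring

lemma dg_symm (b : OrthonormalBasis (Fin n) ℝ (E n)) (g : Fin n → ℝ) (x y : E n) :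
    inner ℝ (dg b g x) y = inner ℝ x (dg b g y) := by
  rw [inner_dg, real_inner_comm, inner_dg]
  refine Finset.sum_congr rfl fun j _ => ?_
  ring

lemma dg_det (b : OrthonormalBasis (Fin n) ℝ (E n)) (g : Fin n → ℝ) :
    LinearMap.det (dg b g) = ∏ j, g j := by
  rw [← LinearMap.det_toMatrix b.toBasis]
  have : LinearMap.toMatrix b.toBasis b.toBasis (dg b g) = Matrix.diagonal g := by
    ext i j
    rw [LinearMap.toMatrix_apply, OrthonormalBasis.coe_toBasis, dg_basis, map_smul]
    have h1 : b.toBasis.repr (b j) = Finsupp.single j 1 := by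
      have := b.toBasis.repr_self j
      simpa using this
    rw [h1, Matrix.diagonal_apply]
    by_cases hij : i = j
    · subst hij; simp
    · simp [hij]
  rw [this, Matrix.det_diagonal]

lemma dg_one (b : OrthonormalBasis (Fin n) ℝ (E n)) (x : E n) : dg b (fun _ => 1) x = x := by
  have : dg b (fun _ => 1) = LinearMap.id := by
    apply dg_ext b
    intro j
    rw [dg_basis, one_smul]; rfl
  rw [this]; rfl

/-- The diagonal operator as a linear equivalence. -/
noncomputable def dgEquiv (b : OrthonormalBasis (Fin n) ℝ (E n)) (g : Fin n → ℝ)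
    (hg : ∀ j, g j ≠ 0) : E n ≃ₗ[ℝ] E n where
  toLinearMap := dg b g
  invFun := dg b (fun j => (g j)⁻¹)
  left_inv x := by
    simp only [AddHom.toFun_eq_coe, LinearMap.coe_toAddHom, dg_comp]
    have : (fun j => (g j)⁻¹ * g j) = fun _ => 1 := by
      funext j; exact inv_mul_cancel₀ (hg j)
    rw [this, dg_one]
  right_inv x := by
    simp only [AddHom.toFun_eq_coe, LinearMap.coe_toAddHom, dg_comp]
    have : (fun j => g j * (g j)⁻¹) = fun _ => 1 := by
      funext j; exact mul_inv_cancel₀ (hg j)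
    rw [this, dg_one]

lemma mem_dgEquiv_image (b : OrthonormalBasis (Fin n) ℝ (E n)) (g : Fin n → ℝ)
    (hg : ∀ j, g j ≠ 0) (x : E n) :
    x ∈ dg b g '' Metric.closedBall 0 1 ↔ ‖dg b (fun j => (g j)⁻¹) x‖ ≤ 1 := by
  constructor
  · rintro ⟨y, hy, rfl⟩
    rw [dg_comp]
    have : (fun j => (g j)⁻¹ * g j) = fun _ => 1 := by
      funext j; exact inv_mul_cancel₀ (hg j)
    rw [this, dg_one]
    simpa using hy
  · intro hx
    refine ⟨dg b (fun j => (g j)⁻¹) x, by simpa using hx, ?_⟩
    rw [dg_comp]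
    have : (fun j => g j * (g j)⁻¹) = fun _ => 1 := by
      funext j; exact mul_inv_cancel₀ (hg j)
    rw [this, dg_one]

lemma isEllipsoid_dg (b : OrthonormalBasis (Fin n) ℝ (E n)) (g : Fin n → ℝ)
    (hg : ∀ j, g j ≠ 0) : IsEllipsoid (dg b g '' Metric.closedBall 0 1) :=
  ⟨(dgEquiv b g hg).toAffineEquiv, rfl⟩

lemma volume_dg (b : OrthonormalBasis (Fin n) ℝ (E n)) (g : Fin n → ℝ) :
    volume (dg b g '' Metric.closedBall 0 1) =
      ENNReal.ofReal |∏ j, g j| * volume (Metric.closedBall (0 : E n) 1) := by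
  rw [Measure.addHaar_image_linearMap, dg_det]

end Pool.Agent.Lib.MP_605763_gt
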