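import Pool.Agent.Lib.MP_605763_gt.LinAlg
import Pool.Agent.Lib.MP_605763_gt.Arith

open Module

namespace Pool.Agent.Lib.MP_605763_gt

variable {n : ℕ}

/-- Existence of at most `m` subspaces of dimension `k` without a common quadric. -/
theorem exists_noQuadric {k d m : ℕ} (hd : d + k = n)
    (h : ∀ r, 1 ≤ r → r ≤ n → phi n r ≤ m * cd d r) :
    ∃ 𝒮 : Finset (Submodule ℝ (E n)), 𝒮.card ≤ m ∧ (∀ S ∈ 𝒮, finrank ℝ S = k) ∧
      NoQuadric 𝒮 := by
  classical
  obtain ⟨A, hA⟩ := exists_int_tuple n d m h
  let w : Fin m → Fin d → E n := fun j i => WithLp.toLp 2 (fun x => (A j i x : ℝ))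
  let W : Fin m → Submodule ℝ (E n) := fun j => Submodule.span ℝ (Set.range (w j))
  have hWdim : ∀ j, k ≤ finrank ℝ ((W j)ᗮ : Submodule ℝ (E n)) := by
    intro j
    have h1 := Submodule.finrank_add_finrank_orthogonal (W j)
    have h2 : finrank ℝ (W j) ≤ d := by
      have := finrank_range_le_card (R := ℝ) (w j)
      simpa [Set.finrank, W] using this
    rw [finrank_euclideanSpace_fin] at h1
    omega
  have hS : ∀ j, ∃ S : Submodule ℝ (E n), S ≤ (W j)ᗮ ∧ finrank ℝ S = k := by
    intro j
    obtain ⟨f, hf⟩ := exists_linearIndependent_of_le_finrank (hWdim j)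
    refine ⟨Submodule.span ℝ (Set.range fun i => (f i : E n)), ?_, ?_⟩
    · rw [Submodule.span_le]
      rintro _ ⟨i, rfl⟩
      exact (f i).2
    · have h1 : LinearIndependent ℝ (fun i => (f i : E n)) :=
        hf.map' ((W j)ᗮ).subtype (Submodule.ker_subtype _)
      rw [finrank_span_eq_card h1, Fintype.card_fin]
  choose S hSle hSf using hS
  refine ⟨Finset.univ.image S, ?_, ?_, ?_⟩
  · refine Finset.card_image_le.trans ?_
    simp
  · intro T hT
    obtain ⟨j, -, rfl⟩ := Finset.mem_image.1 hT
    exact hSf j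
  · intro C hC hvan
    set M : Matrix (Fin n) (Fin n) ℝ := Matrix.toEuclideanLin.symm C with hM
    have hCM : Matrix.toEuclideanLin M = C := by rw [hM]; simp
    have hMsymm : M.IsSymm := by
      have h1 : M.IsHermitian := by
        rw [← Matrix.isSymmetric_toEuclideanLin_iff, hCM]
        exact hC
      ext i j
      have := h1.apply i j
      simpa using this
    have hinner : ∀ u v : Fin n → ℝ, u ⬝ᵥ M.mulVec v =
        inner ℝ (C (WithLp.toLp 2 v)) (WithLp.toLp 2 u : E n) := by
      intro u v
      rw [← hCM, Matrix.toLpLin_apply, EuclideanSpace.inner_eq_star_dotProduct]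
      simp
    have hM0 : M = 0 := by
      refine hA M hMsymm ?_
      intro j i i'
      rw [hinner]
      have hmem : ∀ i, w j i ∈ (S j)ᗮ := by
        intro i
        have h1 : W j ≤ (S j)ᗮ := by
          have h2 := Submodule.orthogonal_le (hSle j)
          rwa [Submodule.orthogonal_orthogonal] at h2
        exact h1 (Submodule.subset_span ⟨i, rfl⟩)
      have hmemS : S j ∈ Finset.univ.image S := Finset.mem_image_of_mem _ (Finset.mem_univ j)
      have h1 := hvan _ hmemS (w j i + w j i') (Submodule.add_mem _ (hmem i) (hmem i'))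
      have h2 := hvan _ hmemS (w j i) (hmem i)
      have h3 := hvan _ hmemS (w j i') (hmem i')
      have h4 : inner ℝ (C (w j i)) (w j i') = inner ℝ (C (w j i')) (w j i) := by
        rw [hC, real_inner_comm]
      rw [map_add, inner_add_left, inner_add_right, inner_add_right, h2, h3, h4] at h1
      have h5 : inner ℝ (C (w j i')) (w j i) = 0 := by linarith
      exact h5
    rw [← hCM, hM0]
    simp

end Pool.Agent.Lib.MP_605763_gt
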