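import Pool.Agent.Lib.MP_605763_gt.Diag

open MeasureTheory Module Pointwise

namespace Pool.Agent.Lib.MP_605763_gt

variable {n : ℕ}

section Spectral

variable {C : E n →ₗ[ℝ] E n} (hC : C.IsSymmetric)

/-- eigenbasis -/
noncomputable def eb : OrthonormalBasis (Fin n) ℝ (E n) :=
  hC.eigenvectorBasis finrank_euclideanSpace_fin

/-- eigenvalues -/
noncomputable def ev : Fin n → ℝ := hC.eigenvalues finrank_euclideanSpace_fin

lemma C_eb (j : Fin n) : C (eb hC j) = ev hC j • eb hC j := by
  have := hC.apply_eigenvectorBasis finrank_euclideanSpace_fin j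
  exact this

lemma dg_linear (t : ℝ) (x : E n) : dg (eb hC) (fun j => 1 + t * ev hC j) x = x + t • C x := by
  have : dg (eb hC) (fun j => 1 + t * ev hC j) = LinearMap.id + t • C := by
    apply dg_ext (eb hC)
    intro j
    rw [dg_basis, LinearMap.add_apply, LinearMap.smul_apply, C_eb, LinearMap.id_apply,
      add_smul, one_smul, smul_smul]
  rw [this]; rfl

/-- square root of the eigenvalues of `1 + t C` -/
noncomputable def sg (t : ℝ) (j : Fin n) : ℝ := Real.sqrt (1 + t * ev hC j)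

include hC in
lemma C_mem_of_vanish {S : Submodule ℝ (E n)} (hS : ∀ x ∈ Sᗮ, inner ℝ (C x) x = 0)
    {w : E n} (hw : w ∈ Sᗮ) : C w ∈ S := by
  rw [← S.orthogonal_orthogonal]
  intro v hv
  have h1 := hS (w + v) (Submodule.add_mem _ hw hv)
  have h2 := hS w hw
  have h3 := hS v hv
  rw [map_add, inner_add_left, inner_add_right, inner_add_right, h2, h3, hC v w,
    real_inner_comm (C w) v] at h1
  rw [real_inner_comm]
  linarith

lemma key_norm {S : Submodule ℝ (E n)} (hS : ∀ x ∈ Sᗮ, inner ℝ (C x) x = 0) {t : ℝ}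
    (ht : ∀ j, 0 < 1 + t * ev hC j) (w : Sᗮ) (s : S) :
    ‖dg (eb hC) (fun j => (sg hC t j)⁻¹) ((s : E n) + (w : E n))‖ ^ 2 = ‖w‖ ^ 2 +
      ‖dg (eb hC) (fun j => (sg hC t j)⁻¹)
        ((s - ⟨t • C w, S.smul_mem t (C_mem_of_vanish hC hS w.2)⟩ : S) : E n)‖ ^ 2 := by
  set s0 : S := ⟨t • C w, S.smul_mem t (C_mem_of_vanish hC hS w.2)⟩ with hs0
  set N := dg (eb hC) (fun j => (sg hC t j)⁻¹) with hN
  set M := dg (eb hC) (sg hC t) with hM
  have hsg : ∀ j, sg hC t j ≠ 0 := fun j => (Real.sqrt_pos.2 (ht j)).ne'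
  have hMM : M (M (w : E n)) = (w : E n) + t • C w := by
    rw [hM, dg_comp, ← dg_linear hC]
    congr 2
    funext j
    exact Real.mul_self_sqrt (ht j).le
  have hNM : ∀ x, N (M x) = x := by
    intro x
    rw [hN, hM, dg_comp]
    have : (fun j => (sg hC t j)⁻¹ * sg hC t j) = fun _ => 1 := by
      funext j; exact inv_mul_cancel₀ (hsg j)
    rw [this, dg_one]
  have hdecomp : (s : E n) + (w : E n) = M (M (w : E n)) + ((s - s0 : S) : E n) := by
    rw [hMM, Submodule.coe_sub, hs0]
    simp only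
    abel
  rw [hdecomp, map_add, hNM, norm_add_sq_real]
  have h1 : inner ℝ (M (w : E n)) (N ((s - s0 : S) : E n)) = 0 := by
    rw [real_inner_comm, hN, dg_symm, ← hN, hNM]
    exact w.2 _ (s - s0).2
  have h2 : ‖M (w : E n)‖ ^ 2 = ‖w‖ ^ 2 := by
    rw [← real_inner_self_eq_norm_sq, hM, ← dg_symm, ← hM, hMM, inner_add_left, inner_smul_left,
      hS _ w.2, real_inner_self_eq_norm_sq]
    simp
  rw [h1, h2]
  ring

/-- The profile function of the X-ray. -/
noncomputable def prof (k : ℕ) (r : ℝ) : ENNReal :=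
  if r ≤ 1 then ENNReal.ofReal |Real.sqrt (1 - r ^ 2) ^ k| else 0

lemma xray_ellipsoid {S : Submodule ℝ (E n)} (hS : ∀ x ∈ Sᗮ, inner ℝ (C x) x = 0) {t : ℝ}
    (ht : ∀ j, 0 < 1 + t * ev hC j) (w : Sᗮ) :
    xray S (dg (eb hC) (sg hC t) '' Metric.closedBall 0 1) w = prof (finrank ℝ S) ‖w‖ *
      volume {s : S | ‖dg (eb hC) (fun j => (sg hC t j)⁻¹) (s : E n)‖ ≤ 1} := by
  have hsg : ∀ j, sg hC t j ≠ 0 := fun j => (Real.sqrt_pos.2 (ht j)).ne'
  have hinj : ∀ x, dg (eb hC) (fun j => (sg hC t j)⁻¹) x = 0 → x = 0 := by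
    intro x hx
    have h1 : dg (eb hC) (sg hC t) (dg (eb hC) (fun j => (sg hC t j)⁻¹) x) = x := by
      rw [dg_comp]
      have : (fun j => sg hC t j * (sg hC t j)⁻¹) = fun _ => 1 := by
        funext j; exact mul_inv_cancel₀ (hsg j)
      rw [this, dg_one]
    rw [hx, map_zero] at h1
    exact h1.symm
  set N := dg (eb hC) (fun j => (sg hC t j)⁻¹) with hN
  set s0 : S := ⟨t • C w, S.smul_mem t (C_mem_of_vanish hC hS w.2)⟩ with hs0
  have hset : {s : S | (s : E n) + (w : E n) ∈ dg (eb hC) (sg hC t) '' Metric.closedBall 0 1} =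
      (fun s : S => s - s0) ⁻¹' {s : S | ‖w‖ ^ 2 + ‖N (s : E n)‖ ^ 2 ≤ 1} := by
    ext s
    simp only [Set.mem_ofPred_eq, Set.mem_preimage]
    rw [mem_dgEquiv_image _ _ hsg, ← key_norm hC hS ht w s]
    constructor
    · intro h
      exact pow_le_one₀ (norm_nonneg _) h
    · intro h
      exact (sq_le_one_iff₀ (norm_nonneg _)).1 h
  have hmeas : volume ((fun s : S => s - s0) ⁻¹' {s : S | ‖w‖ ^ 2 + ‖N (s : E n)‖ ^ 2 ≤ 1}) =
      volume {s : S | ‖w‖ ^ 2 + ‖N (s : E n)‖ ^ 2 ≤ 1} := by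
    simp only [sub_eq_add_neg]
    exact measure_preimage_add_right volume (-s0) _
  rw [xray, hset, hmeas, prof]
  by_cases hw : ‖w‖ ≤ 1
  · rw [if_pos hw]
    have hw2 : 0 ≤ 1 - ‖w‖ ^ 2 := by
      have := pow_le_one₀ (n := 2) (norm_nonneg w) hw
      linarith
    set R := Real.sqrt (1 - ‖w‖ ^ 2) with hR
    have hR0 : 0 ≤ R := Real.sqrt_nonneg _
    have hRsq : R ^ 2 = 1 - ‖w‖ ^ 2 := Real.sq_sqrt hw2
    rw [← Measure.addHaar_smul]
    congr 1
    have h1 : {s : S | ‖w‖ ^ 2 + ‖N (s : E n)‖ ^ 2 ≤ 1} = {s : S | ‖N (s : E n)‖ ≤ R} := by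
      ext s
      simp only [Set.mem_ofPred_eq]
      constructor
      · intro h
        have : ‖N (s : E n)‖ ^ 2 ≤ R ^ 2 := by rw [hRsq]; linarith
        exact (sq_le_sq₀ (norm_nonneg _) hR0).1 this
      · intro h
        have : ‖N (s : E n)‖ ^ 2 ≤ R ^ 2 := (sq_le_sq₀ (norm_nonneg _) hR0).2 h
        rw [hRsq] at this
        linarith
    rw [h1]
    rcases hR0.eq_or_lt with hR00 | hRpos
    · rw [← hR00]
      ext s
      have hne : ({s : S | ‖N (s : E n)‖ ≤ 1} : Set S).Nonempty := ⟨0, by simp⟩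
      rw [Set.zero_smul_set hne]
      simp only [Set.mem_ofPred_eq, Set.mem_zero]
      constructor
      · intro h
        have h2 : N (s : E n) = 0 := by
          rw [← norm_eq_zero]
          exact le_antisymm h (norm_nonneg _)
        exact_mod_cast hinj _ h2
      · rintro rfl
        simp
    · ext s
      rw [Set.mem_smul_set_iff_inv_smul_mem₀ hRpos.ne']
      simp only [Set.mem_ofPred_eq, Submodule.coe_smul, map_smul, norm_smul, norm_inv,
        Real.norm_eq_abs, abs_of_pos hRpos]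
      rw [inv_mul_le_iff₀ hRpos, mul_one]
  · rw [if_neg hw, zero_mul]
    have : {s : S | ‖w‖ ^ 2 + ‖N (s : E n)‖ ^ 2 ≤ 1} = ∅ := by
      ext s
      simp only [Set.mem_ofPred_eq, Set.mem_empty_iff_false, iff_false, not_le]
      push Not at hw
      nlinarith [sq_nonneg ‖N (s : E n)‖]
    rw [this, measure_empty]

lemma dg_ev (x : E n) : dg (eb hC) (ev hC) x = C x := by
  have : dg (eb hC) (ev hC) = C := by
    apply dg_ext (eb hC)
    intro j
    rw [dg_basis, C_eb]
  rw [this]

end Spectral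

lemma exists_neg_root (c : Fin n → ℝ) (h : ∃ i, 0 < c i) :
    ∃ t < 0, (∀ j, 0 < 1 + t * c j) ∧ ∏ j, (1 + t * c j) = 1 / 2 := by
  obtain ⟨i, hi⟩ := h
  have : Nonempty (Fin n) := ⟨i⟩
  obtain ⟨i0, hi0⟩ := Finite.exists_max c
  have hc0 : 0 < c i0 := hi.trans_le (hi0 i)
  have hcont : Continuous fun t : ℝ => ∏ j, (1 + t * c j) := by fun_prop
  have hle : -(c i0)⁻¹ ≤ 0 := by
    have := inv_pos.2 hc0
    linarith
  have h1 : (1 / 2 : ℝ) ∈ (fun t : ℝ => ∏ j, (1 + t * c j)) '' Set.Icc (-(c i0)⁻¹) 0 := by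
    apply intermediate_value_Icc hle hcont.continuousOn
    constructor
    · have : (∏ j, (1 + -(c i0)⁻¹ * c j)) = 0 := by
        apply Finset.prod_eq_zero (Finset.mem_univ i0)
        field_simp
        ring
      rw [this]; norm_num
    · simp only [zero_mul, add_zero, Finset.prod_const_one]
      norm_num
  obtain ⟨t, ⟨ht1, ht2⟩, ht3⟩ := h1
  simp only at ht3
  have hnonneg : ∀ j, 0 ≤ 1 + t * c j := by
    intro j
    rcases le_or_gt (c j) 0 with hj | hj
    · have := mul_nonneg_of_nonpos_of_nonpos ht2 hj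
      linarith
    · have h4 : -(c i0)⁻¹ * c j ≤ t * c j := mul_le_mul_of_nonneg_right ht1 hj.le
      have h5 : (c i0)⁻¹ * c j ≤ 1 := by
        rw [inv_mul_le_iff₀ hc0, mul_one]
        exact hi0 j
      linarith
  refine ⟨t, ?_, ?_, ht3⟩
  · rcases ht2.eq_or_lt with h6 | h6
    · rw [h6] at ht3
      simp at ht3
    · exact h6
  · intro j
    refine lt_of_le_of_ne (hnonneg j) fun h7 => ?_
    have : ∏ j, (1 + t * c j) = 0 := Finset.prod_eq_zero (Finset.mem_univ j) h7.symm
    rw [this] at ht3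
    norm_num at ht3

lemma not_ae_eq {A A' U : Set (E n)} (hU : IsOpen U) (hne : U.Nonempty) (h1 : U ⊆ A)
    (h2 : Disjoint U A') : ¬ A' =ᵐ[volume] A := by
  intro h
  have h3 : volume (A \ A') = 0 := (ae_eq_set.1 h).2
  have h4 : U ⊆ A \ A' := fun x hx => ⟨h1 hx, fun hx2 => Set.disjoint_left.1 h2 hx hx2⟩
  exact (hU.measure_pos volume hne).ne' (measure_mono_null h4 h3)

lemma measurable_prof (k : ℕ) : Measurable fun r : ℝ => prof k r := by
  unfold prof
  refine Measurable.ite (measurableSet_Iic) ?_ measurable_const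
  fun_prop

lemma volume_ball_ne : volume (Metric.closedBall (0 : E n) 1) ≠ 0 := by
  exact (Metric.measure_closedBall_pos volume (0 : E n) one_pos).ne'

lemma volume_sg {C : E n →ₗ[ℝ] E n} (hC : C.IsSymmetric) {t : ℝ}
    (ht : ∀ j, 0 < 1 + t * ev hC j) (hp : ∏ j, (1 + t * ev hC j) = 1 / 2) :
    volume (dg (eb hC) (sg hC t) '' Metric.closedBall 0 1) =
      ENNReal.ofReal (Real.sqrt (1 / 2)) * volume (Metric.closedBall (0 : E n) 1) := by
  rw [volume_dg]
  congr 2
  have h0 : 0 ≤ ∏ j, sg hC t j := Finset.prod_nonneg fun j _ => Real.sqrt_nonneg _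
  rw [abs_of_nonneg h0]
  symm
  rw [Real.sqrt_eq_iff_mul_self_eq (by norm_num) h0, ← Finset.prod_mul_distrib, ← hp]
  refine Finset.prod_congr rfl fun j _ => ?_
  exact (Real.mul_self_sqrt (ht j).le).symm

/-- If a nonzero symmetric operator vanishes, as a quadratic form, on all the orthogonal
complements, then some ellipsoid is not determined, not even among ellipsoids. -/
theorem exists_pair {𝒮 : Finset (Submodule ℝ (E n))} {C : E n →ₗ[ℝ] E n} (hC : C.IsSymmetric)
    (hC0 : C ≠ 0) (hS : ∀ S ∈ 𝒮, ∀ x ∈ Sᗮ, inner ℝ (C x) x = 0) :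
    ∃ A A' : Set (E n), IsEllipsoid A ∧ IsEllipsoid A' ∧ (∀ S ∈ 𝒮, xray S A' = xray S A) ∧
      ¬ A' =ᵐ[volume] A := by
  by_cases hind : (∃ i, 0 < ev hC i) ∧ ∃ i, ev hC i < 0
  · -- indefinite case
    obtain ⟨⟨i, hi⟩, ⟨i', hi'⟩⟩ := hind
    obtain ⟨t1, ht1, hpos1, hprod1⟩ := exists_neg_root (ev hC) ⟨i, hi⟩
    obtain ⟨t2, ht2, hpos2, hprod2⟩ : ∃ t > 0, (∀ j, 0 < 1 + t * ev hC j) ∧
        ∏ j, (1 + t * ev hC j) = 1 / 2 := by
      obtain ⟨t, ht, h1, h2⟩ := exists_neg_root (fun j => - ev hC j) ⟨i', by simpa using hi'⟩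
      refine ⟨-t, by linarith, fun j => ?_, ?_⟩
      · have := h1 j; linarith
      · rw [← h2]
        refine Finset.prod_congr rfl fun j _ => ?_
        ring
    have hsg1 : ∀ j, sg hC t1 j ≠ 0 := fun j => (Real.sqrt_pos.2 (hpos1 j)).ne'
    have hsg2 : ∀ j, sg hC t2 j ≠ 0 := fun j => (Real.sqrt_pos.2 (hpos2 j)).ne'
    refine ⟨dg (eb hC) (sg hC t2) '' Metric.closedBall 0 1,
      dg (eb hC) (sg hC t1) '' Metric.closedBall 0 1, isEllipsoid_dg _ _ hsg2,
      isEllipsoid_dg _ _ hsg1, ?_, ?_⟩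
    · intro S hSS
      set κ1 := volume {s : S | ‖dg (eb hC) (fun j => (sg hC t1 j)⁻¹) (s : E n)‖ ≤ 1} with hκ1
      set κ2 := volume {s : S | ‖dg (eb hC) (fun j => (sg hC t2 j)⁻¹) (s : E n)‖ ≤ 1} with hκ2
      set G := ∫⁻ w : Sᗮ, prof (finrank ℝ S) ‖w‖ with hG
      have hmeas : Measurable fun w : Sᗮ => prof (finrank ℝ S) ‖w‖ :=
        (measurable_prof _).comp measurable_norm
      have hnull : ∀ t, NullMeasurableSet (dg (eb hC) (sg hC t) '' Metric.closedBall 0 1)
          volume := by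
        intro t
        have : IsCompact (dg (eb hC) (sg hC t) '' Metric.closedBall 0 1) :=
          (isCompact_closedBall 0 1).image
            (LinearMap.continuous_of_finiteDimensional (dg (eb hC) (sg hC t)))
        exact this.isClosed.measurableSet.nullMeasurableSet
      have hV1 : volume (dg (eb hC) (sg hC t1) '' Metric.closedBall 0 1) = G * κ1 := by
        rw [volume_eq_lintegral_xray S (hnull t1), hG, ← lintegral_mul_const _ hmeas]
        congr 1
        funext w
        exact xray_ellipsoid hC (hS S hSS) hpos1 w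
      have hV2 : volume (dg (eb hC) (sg hC t2) '' Metric.closedBall 0 1) = G * κ2 := by
        rw [volume_eq_lintegral_xray S (hnull t2), hG, ← lintegral_mul_const _ hmeas]
        congr 1
        funext w
        exact xray_ellipsoid hC (hS S hSS) hpos2 w
      rw [volume_sg hC hpos1 hprod1] at hV1
      rw [volume_sg hC hpos2 hprod2] at hV2
      set V := ENNReal.ofReal (Real.sqrt (1 / 2)) * volume (Metric.closedBall (0 : E n) 1) with hV
      have hV0 : V ≠ 0 := by
        refine mul_ne_zero ?_ volume_ball_ne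
        rw [Ne, ENNReal.ofReal_eq_zero, not_le]
        exact Real.sqrt_pos.2 (by norm_num)
      have hVtop : V ≠ ⊤ := by
        refine ENNReal.mul_ne_top ENNReal.ofReal_ne_top ?_
        exact (isCompact_closedBall 0 1).measure_lt_top.ne
      have hG0 : G ≠ 0 := by
        rintro h0
        rw [h0, zero_mul] at hV1
        exact hV0 hV1
      have hGtop : G ≠ ⊤ := by
        rintro h0
        have hκ0 : κ1 ≠ 0 := by
          rintro h1
          rw [h1, mul_zero] at hV1
          exact hV0 hV1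
        rw [h0, ENNReal.top_mul hκ0] at hV1
        exact hVtop hV1
      have hκ : κ1 = κ2 := by
        have : G * κ1 = G * κ2 := hV1.symm.trans hV2
        exact (ENNReal.mul_right_inj hG0 hGtop).1 this
      funext w
      rw [xray_ellipsoid hC (hS S hSS) hpos1 w, xray_ellipsoid hC (hS S hSS) hpos2 w,
        ← hκ1, ← hκ2, hκ]
    · -- not almost everywhere equal
      have hcont1 : Continuous fun x => ‖dg (eb hC) (fun j => (sg hC t1 j)⁻¹) x‖ :=
        (LinearMap.continuous_of_finiteDimensional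
          (dg (eb hC) (fun j => (sg hC t1 j)⁻¹))).norm
      have hcont2 : Continuous fun x => ‖dg (eb hC) (fun j => (sg hC t2 j)⁻¹) x‖ :=
        (LinearMap.continuous_of_finiteDimensional
          (dg (eb hC) (fun j => (sg hC t2 j)⁻¹))).norm
      refine not_ae_eq (U := {x | ‖dg (eb hC) (fun j => (sg hC t2 j)⁻¹) x‖ < 1} ∩
        {x | 1 < ‖dg (eb hC) (fun j => (sg hC t1 j)⁻¹) x‖}) ?_ ?_ ?_ ?_
      · exact (isOpen_lt hcont2 continuous_const).inter (isOpen_lt continuous_const hcont1)
      · have hnorm : ‖eb hC i‖ = 1 := (eb hC).norm_eq_one i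
        refine ⟨eb hC i, ?_, ?_⟩
        · simp only [Set.mem_ofPred_eq]
          rw [dg_basis, norm_smul, hnorm, mul_one, norm_inv, Real.norm_eq_abs,
            abs_of_nonneg (show 0 ≤ sg hC t2 i from Real.sqrt_nonneg _)]
          apply inv_lt_one_of_one_lt₀
          have : 0 < t2 * ev hC i := mul_pos ht2 hi
          rw [sg, Real.lt_sqrt (by norm_num)]
          linarith
        · simp only [Set.mem_ofPred_eq]
          rw [dg_basis, norm_smul, hnorm, mul_one, norm_inv, Real.norm_eq_abs,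
            abs_of_nonneg (show 0 ≤ sg hC t1 i from Real.sqrt_nonneg _)]
          have hlt : sg hC t1 i < 1 := by
            have : t1 * ev hC i < 0 := mul_neg_of_neg_of_pos ht1 hi
            rw [sg, Real.sqrt_lt' (by norm_num)]
            linarith
          have hpos : 0 < sg hC t1 i := Real.sqrt_pos.2 (hpos1 i)
          exact (one_lt_inv₀ hpos).2 hlt
      · intro x hx
        rw [mem_dgEquiv_image _ _ hsg2]
        exact le_of_lt hx.1
      · rw [Set.disjoint_left]
        intro x hx hx2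
        rw [mem_dgEquiv_image _ _ hsg1] at hx2
        exact absurd hx.2 (not_lt.2 hx2)
  · -- semidefinite case
    have hev : ∃ i, ev hC i ≠ 0 := by
      by_contra hcon
      push Not at hcon
      apply hC0
      apply dg_ext (eb hC)
      intro j
      rw [C_eb, hcon j, zero_smul, LinearMap.zero_apply]
    obtain ⟨i, hi⟩ := hev
    have hmem : ∀ S ∈ 𝒮, eb hC i ∈ S := by
      intro S hSS
      rw [← S.orthogonal_orthogonal]
      intro w hw
      have h1 := hS S hSS w hw
      rw [← dg_ev hC w, inner_dg] at h1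
      have h2 : ev hC i * (inner ℝ (eb hC i) w * inner ℝ (eb hC i) w) = 0 := by
        by_cases hpos : ∃ i, 0 < ev hC i
        · have hall : ∀ j, 0 ≤ ev hC j := by
            intro j
            by_contra hj
            exact hind ⟨hpos, ⟨j, not_le.1 hj⟩⟩
          exact (Finset.sum_eq_zero_iff_of_nonneg fun j _ =>
            mul_nonneg (hall j) (mul_self_nonneg _)).1 h1 i (Finset.mem_univ i)
        · have hall : ∀ j, ev hC j ≤ 0 := by
            intro j
            by_contra hj
            exact hpos ⟨j, not_le.1 hj⟩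
          exact (Finset.sum_eq_zero_iff_of_nonpos fun j _ =>
            mul_nonpos_of_nonpos_of_nonneg (hall j) (mul_self_nonneg _)).1 h1 i (Finset.mem_univ i)
      rcases mul_eq_zero.1 h2 with h3 | h3
      · exact absurd h3 hi
      · have := mul_self_eq_zero.1 h3
        rw [real_inner_comm]
        exact this
    set v : E n := (3 : ℝ) • eb hC i with hv
    have hvnorm : ‖v‖ = 3 := by
      rw [hv, norm_smul, (eb hC).norm_eq_one i]
      norm_num
    refine ⟨Metric.closedBall 0 1, (fun x => v + x) '' Metric.closedBall 0 1,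
      ⟨AffineEquiv.refl ℝ _, by simp⟩, ⟨AffineEquiv.constVAdd ℝ (E n) v, rfl⟩, ?_, ?_⟩
    · intro S hSS
      funext w
      unfold xray
      set s0 : S := ⟨v, S.smul_mem _ (hmem S hSS)⟩ with hs0
      have hset : {s : S | (s : E n) + (w : E n) ∈ (fun x => v + x) '' Metric.closedBall 0 1} =
          (fun s : S => s + (-s0)) ⁻¹' {s : S | (s : E n) + (w : E n) ∈ Metric.closedBall 0 1} := by
        ext s
        simp only [Set.image_add_left, Set.mem_preimage, Set.mem_ofPred_eq, Submodule.coe_add,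
          Submodule.coe_neg, hs0]
        rw [show -v + ((s : E n) + (w : E n)) = (s : E n) + -v + (w : E n) by abel]
      rw [hset]
      exact measure_preimage_add_right volume (-s0) _
    · refine not_ae_eq (U := Metric.ball 0 1) Metric.isOpen_ball ⟨0, by simp⟩
        Metric.ball_subset_closedBall ?_
      rw [Set.disjoint_left]
      rintro x hx ⟨y, hy, rfl⟩
      simp only [mem_ball_zero_iff, mem_closedBall_zero_iff] at hx hy
      have h1 : ‖v‖ ≤ ‖v + y‖ + ‖y‖ := by
        calc ‖v‖ = ‖(v + y) - y‖ := by rw [add_sub_cancel_right]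
          _ ≤ _ := norm_sub_le _ _
      linarith

end Pool.Agent.Lib.MP_605763_gt
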