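import Pool.Agent.Lib.MP_605763_gt.Exist
import Pool.Agent.Lib.MP_605763_gt.Lower

open MeasureTheory Module

namespace Pool.Agent.Lib.MP_605763_gt

variable {n : ℕ}

lemma nontrivial_E (hn : 1 ≤ n) : Nontrivial (E n) := by
  have : Nonempty (Fin n) := ⟨⟨0, hn⟩⟩
  infer_instance

lemma determined_of_ae {𝒮 : Finset (Submodule ℝ (E n))} {A : Set (E n)}
    (h : DeterminedAE 𝒮 A) : Determined 𝒮 A := by
  intro A' hA' hX
  refine h A' hA' fun S hS => ?_
  rw [hX S hS]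

lemma isMeas_of_isEllipsoid {A : Set (E n)} (h : IsEllipsoid A) : IsMeas A := by
  have hc := isEllipsoid_props h
  exact ⟨hc.isClosed.measurableSet.nullMeasurableSet, hc.isBounded⟩

lemma noQuadric_of_determined {𝒮 : Finset (Submodule ℝ (E n))}
    (h : ∀ A : Set (E n), IsEllipsoid A → Determined 𝒮 A) : NoQuadric 𝒮 := by
  intro C hC hvan
  by_contra hC0
  obtain ⟨A, A', hA, hA', hX, hne⟩ := exists_pair hC hC0 hvan
  exact hne (h A hA A' (isMeas_of_isEllipsoid hA') hX)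

lemma determined_iff (hn : 1 ≤ n) (𝒮 : Finset (Submodule ℝ (E n))) :
    (∀ A : Set (E n), IsEllipsoid A → Determined 𝒮 A) ↔ NoQuadric 𝒮 := by
  have := nontrivial_E hn
  exact ⟨noQuadric_of_determined, fun h A hA => determined_of_ae (determinedAE_of_noQuadric h hA)⟩

lemma determinedAE_iff (hn : 1 ≤ n) (𝒮 : Finset (Submodule ℝ (E n))) :
    (∀ A : Set (E n), IsEllipsoid A → DeterminedAE 𝒮 A) ↔ NoQuadric 𝒮 := by
  have := nontrivial_E hn
  exact ⟨fun h => noQuadric_of_determined fun A hA => determined_of_ae (h A hA),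
    fun h A hA => determinedAE_of_noQuadric h hA⟩

/-- The value of `N(n,k)`. -/
lemma card_bounds {k : ℕ} (hn : 3 ≤ n) (hk : 1 < k) (hkn : k ≤ n - 1) :
    (∃ 𝒮 : Finset (Submodule ℝ (E n)),
      𝒮.card ≤ (if 3 * k ≤ n + 1 then 3 else if 2 * k ≤ n then 4 else
        ⌈(n : ℚ) * (n + 1) / (((n : ℚ) - k) * ((n : ℚ) - k + 1))⌉₊) ∧
      (∀ S ∈ 𝒮, finrank ℝ S = k) ∧ NoQuadric 𝒮) ∧
    (∀ 𝒮 : Finset (Submodule ℝ (E n)), (∀ S ∈ 𝒮, finrank ℝ S = k) → NoQuadric 𝒮 →
      (if 3 * k ≤ n + 1 then 3 else if 2 * k ≤ n then 4 else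
        ⌈(n : ℚ) * (n + 1) / (((n : ℚ) - k) * ((n : ℚ) - k + 1))⌉₊) ≤ 𝒮.card) := by
  obtain ⟨d, hd⟩ : ∃ d, d + k = n := ⟨n - k, by omega⟩
  have hd1 : 1 ≤ d := by omega
  by_cases h3 : 3 * k ≤ n + 1
  · simp only [if_pos h3]
    refine ⟨exists_noQuadric hd (arith_three h3 hd (by omega)), ?_⟩
    intro 𝒮 hS hN
    by_contra hcon
    exact not_noQuadric_of_card_le_two (k := k) (by omega) (by omega) hS (by omega) hN
  · by_cases h2 : 2 * k ≤ n
    · simp only [if_neg h3, if_pos h2]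
      refine ⟨exists_noQuadric hd (arith_four (by omega)), ?_⟩
      intro 𝒮 hS hN
      by_contra hcon
      exact not_noQuadric_of_card_le_three (k := k) (by omega) (by omega) (by omega) hS
        (by omega) hN
    · simp only [if_neg h3, if_neg h2]
      have hnk : (n : ℚ) - k = d := by
        rw [← hd]; push_cast; ring
      rw [hnk]
      have hdpos : (0 : ℚ) < (d : ℚ) * (d + 1) := by
        have : (0 : ℚ) < d := by exact_mod_cast hd1
        positivity
      constructor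
      · refine exists_noQuadric hd (arith_small hn (by omega) ?_)
        have h4 := Nat.le_ceil ((n : ℚ) * (n + 1) / ((d : ℚ) * (d + 1)))
        rw [div_le_iff₀ hdpos] at h4
        exact_mod_cast h4
      · intro 𝒮 hS hN
        by_contra hcon
        rw [not_le, Nat.lt_ceil, lt_div_iff₀ hdpos] at hcon
        exact not_noQuadric_of_count hd hS (by exact_mod_cast hcon) hN

theorem main (n k : ℕ) (hn : 3 ≤ n) (hk : 1 < k) (hkn : k ≤ n - 1) :
    leastXrays (EuclideanSpace ℝ (Fin n)) k = ((if 3 * k ≤ n + 1 then 3 else if 2 * k ≤ n then 4 else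
        ⌈(n : ℚ) * (n + 1) / (((n : ℚ) - k) * ((n : ℚ) - k + 1))⌉₊ : ℕ) : ℕ∞) ∧
    leastXraysAE (EuclideanSpace ℝ (Fin n)) k = ((if 3 * k ≤ n + 1 then 3 else if 2 * k ≤ n then 4 else
        ⌈(n : ℚ) * (n + 1) / (((n : ℚ) - k) * ((n : ℚ) - k + 1))⌉₊ : ℕ) : ℕ∞) := by
  obtain ⟨⟨𝒮, hcard, hfin, hN⟩, hlow⟩ := card_bounds hn hk hkn
  constructor
  · apply le_antisymm
    · have hle : leastXrays (EuclideanSpace ℝ (Fin n)) k ≤ (𝒮.card : ℕ∞) := by
        apply sInf_le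
        exact ⟨𝒮, rfl, hfin, (determined_iff (by omega) 𝒮).2 hN⟩
      refine hle.trans ?_
      exact_mod_cast hcard
    · refine le_sInf ?_
      rintro _ ⟨𝒯, rfl, hT, hdet⟩
      exact_mod_cast hlow 𝒯 hT ((determined_iff (by omega) 𝒯).1 hdet)
  · apply le_antisymm
    · have hle : leastXraysAE (EuclideanSpace ℝ (Fin n)) k ≤ (𝒮.card : ℕ∞) := by
        apply sInf_le
        exact ⟨𝒮, rfl, hfin, (determinedAE_iff (by omega) 𝒮).2 hN⟩
      refine hle.trans ?_
      exact_mod_cast hcard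
    · refine le_sInf ?_
      rintro _ ⟨𝒯, rfl, hT, hdet⟩
      exact_mod_cast hlow 𝒯 hT ((determinedAE_iff (by omega) 𝒯).1 hdet)

end Pool.Agent.Lib.MP_605763_gt
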