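import Pool.Agent.Lib.MP_605763_gt.Count2

open Module

namespace Pool.Agent.Lib.MP_605763_gt

/-- An integer matrix with trivial kernel modulo a prime has trivial kernel over the reals. -/
lemma lift_injective {ι κ : Type} [Fintype ι] [Fintype κ] [DecidableEq ι] [DecidableEq κ]
    (G : Matrix ι κ ℤ) (p : ℕ) [Fact p.Prime]
    (h : ∀ v : κ → ZMod p, (G.map (Int.castRingHom (ZMod p))).mulVec v = 0 → v = 0) :
    ∀ v : κ → ℝ, (G.map (Int.castRingHom ℝ)).mulVec v = 0 → v = 0 := by
  intro v hv
  have hker : LinearMap.ker (Matrix.toLin' (G.map (Int.castRingHom (ZMod p)))) = ⊥ := by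
    rw [LinearMap.ker_eq_bot']
    intro w hw
    exact h w (by simpa using hw)
  obtain ⟨g, hg⟩ := LinearMap.exists_leftInverse_of_injective _ hker
  have hN : LinearMap.toMatrix' g * G.map (Int.castRingHom (ZMod p)) = 1 := by
    have := congrArg LinearMap.toMatrix' hg
    rwa [LinearMap.toMatrix'_comp, LinearMap.toMatrix'_toLin', LinearMap.toMatrix'_id] at this
  choose lift hlift using ZMod.intCast_surjective (n := p)
  set N : Matrix κ ι ℤ := (LinearMap.toMatrix' g).map lift with hNdef
  have hNmap : N.map (Int.castRingHom (ZMod p)) = LinearMap.toMatrix' g := by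
    ext a b
    simp [hNdef, hlift]
  have hdet : (Int.castRingHom (ZMod p)) (N * G).det = 1 := by
    rw [RingHom.map_det, RingHom.mapMatrix_apply, Matrix.map_mul, hNmap, hN, Matrix.det_one]
  have hdet0 : (N * G).det ≠ 0 := by
    intro h0
    rw [h0, map_zero] at hdet
    exact zero_ne_one hdet
  have hdetR : ((N * G).map (Int.castRingHom ℝ)).det ≠ 0 := by
    rw [← RingHom.mapMatrix_apply, ← RingHom.map_det]
    simpa using hdet0
  refine Matrix.eq_zero_of_mulVec_eq_zero hdetR ?_
  rw [Matrix.map_mul, ← Matrix.mulVec_mulVec, hv, Matrix.mulVec_zero]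

/-- The integer matrix of the linear system expressing that a symmetric matrix vanishes on the
given tuples of vectors. -/
def sysMat {n d m : ℕ} (A : Fin m → Fin d → Fin n → ℤ) :
    Matrix ((Fin m × Fin d × Fin d) ⊕ (Fin n × Fin n)) (Fin n × Fin n) ℤ :=
  fun r c => match r with
    | Sum.inl (j, i, i') => A j i c.1 * A j i' c.2
    | Sum.inr (x, y) => (if (x, y) = c then 1 else 0) - (if (y, x) = c then 1 else 0)

lemma sysMat_mulVec_eq_zero_iff {n d m : ℕ} (A : Fin m → Fin d → Fin n → ℤ) {R : Type}
    [CommRing R] (v : Fin n × Fin n → R) :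
    ((sysMat A).map (Int.castRingHom R)).mulVec v = 0 ↔
      (Matrix.of fun x y => v (x, y)).IsSymm ∧
      ∀ j i i', (fun x => (A j i x : R)) ⬝ᵥ (Matrix.of fun x y => v (x, y)).mulVec
        (fun x => (A j i' x : R)) = 0 := by
  have h1 : ∀ j i i', ((sysMat A).map (Int.castRingHom R)).mulVec v (Sum.inl (j, i, i')) =
      (fun x => (A j i x : R)) ⬝ᵥ (Matrix.of fun x y => v (x, y)).mulVec
        (fun x => (A j i' x : R)) := by
    intro j i i'
    simp only [Matrix.mulVec, dotProduct, Matrix.map_apply, sysMat, Matrix.of_apply,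
      Fintype.sum_prod_type, Finset.mul_sum]
    refine Finset.sum_congr rfl fun x _ => Finset.sum_congr rfl fun y _ => ?_
    simp
    ring
  have h2 : ∀ x y, ((sysMat A).map (Int.castRingHom R)).mulVec v (Sum.inr (x, y)) =
      v (x, y) - v (y, x) := by
    intro x y
    simp only [Matrix.mulVec, dotProduct, Matrix.map_apply, sysMat]
    simp only [map_sub, sub_mul, Finset.sum_sub_distrib]
    congr 1
    · rw [Finset.sum_eq_single (x, y)]
      · simp
      · intro b _ hb
        simp [Ne.symm hb]
      · simp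
    · rw [Finset.sum_eq_single (y, x)]
      · simp
      · intro b _ hb
        simp [Ne.symm hb]
      · simp
  constructor
  · intro h
    refine ⟨?_, fun j i i' => ?_⟩
    · ext x y
      have := congrFun h (Sum.inr (y, x))
      rw [h2] at this
      simpa [sub_eq_zero] using this
    · rw [← h1, h]; rfl
  · rintro ⟨hs, h⟩
    funext r
    rcases r with ⟨j, i, i'⟩ | ⟨x, y⟩
    · rw [h1, h]; rfl
    · rw [h2]
      have := hs.apply y x
      simp only [Matrix.of_apply] at this
      simp [this]

theorem exists_int_tuple (n d m : ℕ) (h : ∀ r, 1 ≤ r → r ≤ n → phi n r ≤ m * cd d r) :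
    ∃ A : Fin m → Fin d → Fin n → ℤ, ∀ M : Matrix (Fin n) (Fin n) ℝ, M.IsSymm →
      (∀ j i i', (fun x => (A j i x : ℝ)) ⬝ᵥ M.mulVec (fun x => (A j i' x : ℝ)) = 0) →
      M = 0 := by
  obtain ⟨p, hp, hprime⟩ := Nat.exists_infinite_primes (2 ^ n * 3 ^ (d * m) + 3)
  have : Fact p.Prime := ⟨hprime⟩
  have hp2 : (2 : ZMod p) ≠ 0 := by
    intro h0
    have h1 : ((2 : ℕ) : ZMod p) = 0 := by exact_mod_cast h0
    rw [ZMod.natCast_eq_zero_iff] at h1
    have := Nat.le_of_dvd (by norm_num) h1
    omega
  obtain ⟨A, hA⟩ := exists_good_tuple (K := ZMod p) (n := n) d m hp2 h (by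
    rw [Nat.card_zmod]; omega)
  choose lift hlift using ZMod.intCast_surjective (n := p)
  refine ⟨fun j i x => lift (A j i x), fun M hM hMA => ?_⟩
  have hinj := lift_injective (sysMat fun j i x => lift (A j i x)) p (by
    intro v hv
    rw [sysMat_mulVec_eq_zero_iff] at hv
    simp only [hlift] at hv
    have := hA _ hv.1 hv.2
    funext z
    have := congrFun (congrFun this z.1) z.2
    simpa using this) (fun z => M z.1 z.2) (by
    rw [sysMat_mulVec_eq_zero_iff]
    exact ⟨hM, hMA⟩)
  ext x y
  exact congrFun hinj (x, y)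

end Pool.Agent.Lib.MP_605763_gt
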