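import Pool.Agent.Lib.MP_605763_gt.Upper

open Module

namespace Pool.Agent.Lib.MP_605763_gt

variable {n : ℕ}

lemma two_mul_choose' (n : ℕ) : 2 * (n + 1).choose 2 = (n + 1) * n := by
  induction n with
  | zero => simp
  | succ n ih =>
    rw [Nat.choose_succ_succ' (n + 1) 1, mul_add, ih, Nat.choose_one_right]
    ring

/-- The symmetrised rank two operator of two vectors. -/
noncomputable def symOp (u v : E n) : E n →ₗ[ℝ] E n :=
  LinearMap.toSpanSingleton ℝ (E n) v ∘ₗ (innerₛₗ ℝ u) +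
    LinearMap.toSpanSingleton ℝ (E n) u ∘ₗ (innerₛₗ ℝ v)

lemma symOp_apply (u v x : E n) :
    symOp u v x = (inner ℝ u x : ℝ) • v + (inner ℝ v x : ℝ) • u := by
  simp [symOp]

lemma symOp_symm (u v : E n) : (symOp u v).IsSymmetric := by
  intro x y
  simp only [symOp_apply, inner_add_left, inner_add_right, inner_smul_left, inner_smul_right,
    conj_trivial]
  rw [real_inner_comm v x, real_inner_comm u x]
  ring

lemma symOp_quad (u v x : E n) :
    inner ℝ (symOp u v x) x = 2 * ((inner ℝ u x : ℝ) * inner ℝ v x) := by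
  simp only [symOp_apply, inner_add_left, inner_smul_left, conj_trivial]
  ring

lemma symOp_ne_zero {u v : E n} (hu : u ≠ 0) (hv : v ≠ 0) : symOp u v ≠ 0 := by
  intro h
  have h1 := LinearMap.congr_fun h u
  have h2 : inner ℝ (symOp u v u) v = 0 := by rw [h1]; simp
  rw [symOp_apply, inner_add_left, inner_smul_left, inner_smul_left] at h2
  simp only [conj_trivial, real_inner_self_eq_norm_sq] at h2
  rw [real_inner_comm u v] at h2
  have h3 : 0 < ‖u‖ ^ 2 * ‖v‖ ^ 2 := by
    have := norm_pos_iff.2 hu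
    have := norm_pos_iff.2 hv
    positivity
  nlinarith [mul_self_nonneg (inner ℝ u v : ℝ)]

/-- If every member of `𝒮` contains one of two nonzero vectors, there is a common quadric. -/
lemma not_noQuadric_of_two {𝒮 : Finset (Submodule ℝ (E n))} {u v : E n} (hu : u ≠ 0) (hv : v ≠ 0)
    (h : ∀ S ∈ 𝒮, u ∈ S ∨ v ∈ S) : ¬ NoQuadric 𝒮 := by
  intro hN
  refine symOp_ne_zero hu hv (hN _ (symOp_symm u v) ?_)
  intro S hS x hx
  rw [symOp_quad]
  rcases h S hS with h1 | h1
  · rw [hx u h1]; ring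
  · rw [hx v h1]; ring

lemma exists_mem_ne_zero {S : Submodule ℝ (E n)} (h : 1 ≤ finrank ℝ S) : ∃ u ∈ S, u ≠ 0 := by
  have : S ≠ ⊥ := by
    rintro rfl
    simp at h
  exact S.exists_mem_ne_zero_of_ne_bot this

lemma not_noQuadric_of_card_le_two {k : ℕ} (hk : 1 ≤ k) (hn : 1 ≤ n)
    {𝒮 : Finset (Submodule ℝ (E n))}
    (h : ∀ S ∈ 𝒮, finrank ℝ S = k) (hc : 𝒮.card ≤ 2) : ¬ NoQuadric 𝒮 := by
  obtain ⟨e, he⟩ : ∃ e : E n, e ≠ 0 := by
    refine ⟨EuclideanSpace.single ⟨0, hn⟩ 1, ?_⟩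
    intro h0
    have := congrArg (fun x : E n => x ⟨0, hn⟩) h0
    simp at this
  interval_cases h3 : 𝒮.card
  · rw [Finset.card_eq_zero] at h3
    subst h3
    exact not_noQuadric_of_two he he (by simp)
  · obtain ⟨S, rfl⟩ := Finset.card_eq_one.1 h3
    obtain ⟨u, huS, hu⟩ := exists_mem_ne_zero (S := S) (by rw [h S (by simp)]; exact hk)
    exact not_noQuadric_of_two hu hu (by simpa using huS)
  · obtain ⟨S, T, -, rfl⟩ := Finset.card_eq_two.1 h3
    obtain ⟨u, huS, hu⟩ := exists_mem_ne_zero (S := S) (by rw [h S (by simp)]; exact hk)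
    obtain ⟨v, hvT, hv⟩ := exists_mem_ne_zero (S := T) (by rw [h T (by simp)]; exact hk)
    refine not_noQuadric_of_two hu hv ?_
    intro R hR
    rcases Finset.mem_insert.1 hR with h4 | h4
    · left; rwa [h4]
    · right; rw [Finset.mem_singleton.1 h4]; exact hvT

lemma not_noQuadric_three {S T U : Submodule ℝ (E n)} {k : ℕ} (hk : 1 ≤ k)
    (hS : finrank ℝ S = k) (hT : finrank ℝ T = k) (hU : finrank ℝ U = k) (hn : n + 2 ≤ 3 * k)
    {𝒮 : Finset (Submodule ℝ (E n))} (h𝒮 : ∀ R ∈ 𝒮, R = S ∨ R = T ∨ R = U) : ¬ NoQuadric 𝒮 := by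
  -- pairwise intersections
  have hpair : ∀ {P Q R : Submodule ℝ (E n)}, 1 ≤ finrank ℝ R → P ⊓ Q ≠ ⊥ →
      (∀ X ∈ 𝒮, X = P ∨ X = Q ∨ X = R) → ¬ NoQuadric 𝒮 := by
    intro P Q R hR hPQ h1
    obtain ⟨u, hu, hu0⟩ := Submodule.exists_mem_ne_zero_of_ne_bot hPQ
    obtain ⟨v, hv, hv0⟩ := exists_mem_ne_zero hR
    refine not_noQuadric_of_two hu0 hv0 ?_
    intro X hX
    rcases h1 X hX with rfl | rfl | rfl
    · left; exact hu.1
    · left; exact hu.2
    · right; exact hv
  by_cases hST : S ⊓ T ≠ ⊥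
  · exact hpair (by rw [hU]; exact hk) hST h𝒮
  by_cases hSU : S ⊓ U ≠ ⊥
  · refine hpair (R := T) (by rw [hT]; exact hk) hSU ?_
    intro X hX
    rcases h𝒮 X hX with h | h | h <;> simp [h]
  by_cases hTU : T ⊓ U ≠ ⊥
  · refine hpair (R := S) (by rw [hS]; exact hk) hTU ?_
    intro X hX
    rcases h𝒮 X hX with h | h | h <;> simp [h]
  push Not at hST hSU hTU
  intro hN
  -- the sum map
  let φ : (S × T × U) →ₗ[ℝ] E n :=
    (S.subtype).coprod ((T.subtype).coprod U.subtype)
  have hφ : ∀ p, φ p = (p.1 : E n) + ((p.2.1 : E n) + (p.2.2 : E n)) := fun p => rfl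
  have hker : 2 ≤ finrank ℝ (LinearMap.ker φ) := by
    have h1 := LinearMap.finrank_range_add_finrank_ker φ
    have h2 : finrank ℝ (LinearMap.range φ) ≤ n := by
      have := Submodule.finrank_le (LinearMap.range φ)
      simpa using this
    have h3 : finrank ℝ (S × T × U) = 3 * k := by
      rw [finrank_prod, finrank_prod, hS, hT, hU]; ring
    omega
  obtain ⟨w, hw⟩ := exists_linearIndependent_of_le_finrank hker
  have hw2 : ∀ s t : ℝ, s • w 0 + t • w 1 = 0 → s = 0 ∧ t = 0 := by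
    have : ![w 0, w 1] = w := by
      funext i; fin_cases i <;> rfl
    rw [← this] at hw
    exact LinearIndependent.pair_iff.1 hw
  have hmem : ∀ p : LinearMap.ker φ,
      ((p : S × T × U).1 : E n) + (((p : S × T × U).2.1 : E n) + ((p : S × T × U).2.2 : E n)) = 0 :=
    fun p => (hφ p).symm.trans (LinearMap.mem_ker.1 p.2)
  set u1 : E n := ((w 0 : S × T × U).1 : E n) with hu1
  set u2 : E n := ((w 0 : S × T × U).2.1 : E n) with hu2
  set u3 : E n := ((w 0 : S × T × U).2.2 : E n) with hu3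
  set v1 : E n := ((w 1 : S × T × U).1 : E n) with hv1
  set v2 : E n := ((w 1 : S × T × U).2.1 : E n) with hv2
  set v3 : E n := ((w 1 : S × T × U).2.2 : E n) with hv3
  have hu : u1 + (u2 + u3) = 0 := hmem (w 0)
  have hv : v1 + (v2 + v3) = 0 := hmem (w 1)
  have hu1S : u1 ∈ S := (w 0 : S × T × U).1.2
  have hv1S : v1 ∈ S := (w 1 : S × T × U).1.2
  have hu2T : u2 ∈ T := (w 0 : S × T × U).2.1.2
  have hv2T : v2 ∈ T := (w 1 : S × T × U).2.1.2
  have hu3U : u3 ∈ U := (w 0 : S × T × U).2.2.2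
  have hv3U : v3 ∈ U := (w 1 : S × T × U).2.2.2
  have hzero : ∀ s t : ℝ, s • u1 + t • v1 = 0 → s • u2 + t • v2 = 0 → s • u3 + t • v3 = 0 →
      s = 0 ∧ t = 0 := by
    intro s t h1 h2 h3
    apply hw2
    apply Subtype.ext
    refine Prod.ext (Subtype.ext ?_) (Prod.ext (Subtype.ext ?_) (Subtype.ext ?_))
    · simpa using h1
    · simpa using h2
    · simpa using h3
  have hsum : ∀ s t : ℝ, (s • u1 + t • v1) + ((s • u2 + t • v2) + (s • u3 + t • v3)) = 0 := by
    intro s t
    have : (s • u1 + t • v1) + ((s • u2 + t • v2) + (s • u3 + t • v3)) =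
        s • (u1 + (u2 + u3)) + t • (v1 + (v2 + v3)) := by
      simp only [smul_add]; abel
    rw [this, hu, hv]; simp
  have hi1 : ∀ s t : ℝ, s • u1 + t • v1 = 0 → s = 0 ∧ t = 0 := by
    intro s t h1
    have h2 := hsum s t
    rw [h1, zero_add] at h2
    have h3 : s • u2 + t • v2 ∈ T ⊓ U := by
      refine ⟨T.add_mem (T.smul_mem _ hu2T) (T.smul_mem _ hv2T), ?_⟩
      rw [eq_neg_of_add_eq_zero_left h2]
      exact U.neg_mem (U.add_mem (U.smul_mem _ hu3U) (U.smul_mem _ hv3U))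
    rw [hTU, Submodule.mem_bot] at h3
    rw [h3, zero_add] at h2
    exact hzero s t h1 h3 h2
  have hi2 : ∀ s t : ℝ, s • u2 + t • v2 = 0 → s = 0 ∧ t = 0 := by
    intro s t h1
    have h2 := hsum s t
    rw [h1, zero_add] at h2
    have h3 : s • u1 + t • v1 ∈ S ⊓ U := by
      refine ⟨S.add_mem (S.smul_mem _ hu1S) (S.smul_mem _ hv1S), ?_⟩
      rw [eq_neg_of_add_eq_zero_left h2]
      exact U.neg_mem (U.add_mem (U.smul_mem _ hu3U) (U.smul_mem _ hv3U))
    rw [hSU, Submodule.mem_bot] at h3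
    rw [h3, zero_add] at h2
    exact hzero s t h3 h1 h2
  have hC : symOp u1 v2 - symOp v1 u2 = 0 := by
    refine hN _ ?_ ?_
    · intro x y
      rw [LinearMap.sub_apply, LinearMap.sub_apply, inner_sub_left, inner_sub_right,
        symOp_symm, symOp_symm]
    · intro R hR x hx
      rw [LinearMap.sub_apply, inner_sub_left, symOp_quad, symOp_quad]
      rcases h𝒮 R hR with h | h | h
      · rw [h] at hx
        rw [hx u1 hu1S, hx v1 hv1S]; ring
      · rw [h] at hx
        rw [hx u2 hu2T, hx v2 hv2T]; ring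
      · rw [h] at hx
        have h3 : inner ℝ u2 x = - inner ℝ u1 x := by
          have h4 : inner ℝ (u1 + (u2 + u3)) x = 0 := by rw [hu]; simp
          rw [inner_add_left, inner_add_left, hx u3 hu3U] at h4
          linarith
        have h5 : inner ℝ v2 x = - inner ℝ v1 x := by
          have h4 : inner ℝ (v1 + (v2 + v3)) x = 0 := by rw [hv]; simp
          rw [inner_add_left, inner_add_left, hx v3 hv3U] at h4
          linarith
        rw [h3, h5]; ring
  have h1 := LinearMap.congr_fun hC v2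
  rw [LinearMap.sub_apply, symOp_apply, symOp_apply, LinearMap.zero_apply] at h1
  have h2 : (inner ℝ v2 v2 : ℝ) • u1 + (-(inner ℝ u2 v2 : ℝ)) • v1 =
      (-(inner ℝ u1 v2 : ℝ)) • v2 + (inner ℝ v1 v2 : ℝ) • u2 := by
    rw [← sub_eq_zero]
    rw [← h1]
    simp only [neg_smul]
    abel
  have h3 : (inner ℝ v2 v2 : ℝ) • u1 + (-(inner ℝ u2 v2 : ℝ)) • v1 ∈ S ⊓ T := by
    refine ⟨S.add_mem (S.smul_mem _ hu1S) (S.smul_mem _ hv1S), ?_⟩
    rw [h2]
    exact T.add_mem (T.smul_mem _ hv2T) (T.smul_mem _ hu2T)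
  rw [hST, Submodule.mem_bot] at h3
  have h4 := (hi1 _ _ h3).1
  have h5 : v2 = 0 := inner_self_eq_zero.1 h4
  have h6 := (hi2 0 1 (by rw [h5]; simp)).2
  exact one_ne_zero h6

lemma not_noQuadric_of_card_le_three {k : ℕ} (hk : 1 ≤ k) (h1n : 1 ≤ n) (hn : n + 2 ≤ 3 * k)
    {𝒮 : Finset (Submodule ℝ (E n))}
    (h : ∀ S ∈ 𝒮, finrank ℝ S = k) (hc : 𝒮.card ≤ 3) : ¬ NoQuadric 𝒮 := by
  rcases Nat.lt_or_ge 𝒮.card 3 with h3 | h3
  · exact not_noQuadric_of_card_le_two hk h1n h (by omega)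
  · have h4 : 𝒮.card = 3 := le_antisymm hc h3
    obtain ⟨S, T, U, -, -, -, rfl⟩ := Finset.card_eq_three.1 h4
    refine not_noQuadric_three hk (h S (by simp)) (h T (by simp)) (h U (by simp)) hn ?_
    intro R hR
    simpa using hR

/-- Dimension count. -/
lemma not_noQuadric_of_count {k d : ℕ} (hd : d + k = n)
    {𝒮 : Finset (Submodule ℝ (E n))}
    (h : ∀ S ∈ 𝒮, finrank ℝ S = k) (hc : 𝒮.card * (d * (d + 1)) < n * (n + 1)) :
    ¬ NoQuadric 𝒮 := by
  classical
  intro hN
  have hbasis : ∀ S : 𝒮, ∃ b : Fin d → E n, (∀ x ∈ (S : Submodule ℝ (E n))ᗮ,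
      x ∈ Submodule.span ℝ (Set.range b)) ∧ True := by
    intro S
    have h1 : finrank ℝ ((S : Submodule ℝ (E n))ᗮ : Submodule ℝ (E n)) = d := by
      have h2 := Submodule.finrank_add_finrank_orthogonal (S : Submodule ℝ (E n))
      rw [h S S.2, finrank_euclideanSpace_fin] at h2
      omega
    let b := finBasisOfFinrankEq ℝ ((S : Submodule ℝ (E n))ᗮ : Submodule ℝ (E n)) h1
    refine ⟨fun i => (b i : E n), ?_, trivial⟩
    intro x hx
    have h3 : (⟨x, hx⟩ : ((S : Submodule ℝ (E n))ᗮ : Submodule ℝ (E n))) ∈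
        Submodule.span ℝ (Set.range b) := b.mem_span _
    have h4 := Submodule.mem_map_of_mem (f := ((S : Submodule ℝ (E n))ᗮ).subtype) h3
    rw [Submodule.map_span, ← Set.range_comp] at h4
    exact h4
  choose b hb _ using hbasis
  -- symmetric operators parametrised by functions on unordered pairs
  let op : (Sym2 (Fin n) → ℝ) →ₗ[ℝ] (E n →ₗ[ℝ] E n) :=
    (Matrix.toEuclideanLin (𝕜 := ℝ) (m := Fin n) (n := Fin n)).toLinearMap ∘ₗ
      { toFun := fun c => Matrix.of fun i j => c s(i, j)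
        map_add' := fun c c' => rfl
        map_smul' := fun a c => rfl }
  have hopsymm : ∀ c, (op c).IsSymmetric := by
    intro c
    have : (Matrix.of fun i j => c s(i, j)).IsHermitian := by
      ext i j
      simp [Matrix.conjTranspose_apply, Sym2.eq_swap]
    exact Matrix.isSymmetric_toEuclideanLin_iff.2 this
  have hopinj : ∀ c, op c = 0 → c = 0 := by
    intro c hc0
    have h1 : (Matrix.of fun i j => c s(i, j)) = 0 := by
      have : Matrix.toEuclideanLin (Matrix.of fun i j => c s(i, j)) = 0 := hc0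
      simpa using this
    funext z
    induction z with
    | _ i j => exact congrFun (congrFun h1 i) j
  let L : (Sym2 (Fin n) → ℝ) →ₗ[ℝ] (𝒮 × Sym2 (Fin d) → ℝ) :=
    { toFun := fun c p => inner ℝ (op c (b p.1 (Quot.out p.2).1)) (b p.1 (Quot.out p.2).2)
      map_add' := by
        intro c c'
        funext p
        simp [inner_add_left]
      map_smul' := by
        intro a c
        funext p
        simp [inner_smul_left] }
  have hdim : finrank ℝ (𝒮 × Sym2 (Fin d) → ℝ) < finrank ℝ (Sym2 (Fin n) → ℝ) := by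
    rw [finrank_fintype_fun_eq_card, finrank_fintype_fun_eq_card, Fintype.card_prod, Sym2.card,
      Sym2.card, Fintype.card_coe, Fintype.card_fin, Fintype.card_fin]
    have h1 := two_mul_choose' n
    have h2 := two_mul_choose' d
    have h3 : 2 * (𝒮.card * (d + 1).choose 2) < 2 * (n + 1).choose 2 := by
      calc 2 * (𝒮.card * (d + 1).choose 2) = 𝒮.card * (2 * (d + 1).choose 2) := by ring
        _ = 𝒮.card * (d * (d + 1)) := by rw [h2]; ring
        _ < n * (n + 1) := hc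
        _ = 2 * (n + 1).choose 2 := by rw [h1]; ring
    omega
  obtain ⟨c, hcker, hc0⟩ := Submodule.exists_mem_ne_zero_of_ne_bot
    (LinearMap.ker_ne_bot_of_finrank_lt (f := L) hdim)
  apply hc0
  apply hopinj
  refine hN _ (hopsymm c) ?_
  intro S hS x hx
  -- vanishing on all pairs
  have hpair : ∀ i j, inner ℝ (op c (b ⟨S, hS⟩ i)) (b ⟨S, hS⟩ j) = 0 := by
    intro i j
    have h1 : inner ℝ (op c (b ⟨S, hS⟩ (Quot.out s(i, j)).1)) (b ⟨S, hS⟩ (Quot.out s(i, j)).2) = 0 :=
      congrFun (LinearMap.mem_ker.1 hcker) (⟨S, hS⟩, s(i, j))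
    have h2 : s((Quot.out s(i, j)).1, (Quot.out s(i, j)).2) = s(i, j) := Quot.out_eq s(i, j)
    rcases Sym2.eq_iff.1 h2 with ⟨h3, h4⟩ | ⟨h3, h4⟩
    · rwa [h3, h4] at h1
    · rw [h3, h4, hopsymm c, real_inner_comm] at h1
      exact h1
  have hspan : ∀ y ∈ Submodule.span ℝ (Set.range (b ⟨S, hS⟩)),
      ∀ z ∈ Submodule.span ℝ (Set.range (b ⟨S, hS⟩)), inner ℝ (op c y) z = 0 := by
    intro y hy z hz
    induction hy using Submodule.span_induction with
    | mem y hy =>
      obtain ⟨i, rfl⟩ := hy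
      induction hz using Submodule.span_induction with
      | mem z hz =>
        obtain ⟨j, rfl⟩ := hz
        exact hpair i j
      | zero => simp
      | add z z' _ _ h1 h2 => rw [inner_add_right, h1, h2, add_zero]
      | smul a z _ h1 => rw [inner_smul_right, h1, mul_zero]
    | zero => simp
    | add y y' _ _ h1 h2 => rw [map_add, inner_add_left, h1, h2, add_zero]
    | smul a y _ h1 => rw [map_smul, inner_smul_left, h1, mul_zero]
  exact hspan x (hb ⟨S, hS⟩ x hx) x (hb ⟨S, hS⟩ x hx)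

end Pool.Agent.Lib.MP_605763_gt
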