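import Pool.Agent.Lib.MP_605763_gt.Final

open MeasureTheory Module

namespace Pool.Agent.Lib.MP_605763_gt

/-- The X-ray at `x` is the `k`-dimensional (Euclidean Hausdorff, that is Lebesgue) measure of
`A ∩ (S + x)`, where `k` is the dimension of `S`. -/
theorem xray_eq_hausdorff {V : Type} [NormedAddCommGroup V] [InnerProductSpace ℝ V]
    [FiniteDimensional ℝ V] [MeasurableSpace V] [BorelSpace V] (S : Submodule ℝ V) (A : Set V)
    (x : Sᗮ) : xray S A x = μHE[finrank ℝ S] (A ∩ {y : V | y - (x : V) ∈ S}) := by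
  have hiso : Isometry (fun s : S => (s : V) + (x : V)) := by
    intro s t
    simp [edist_add_right, Subtype.edist_eq]
  have himg : (fun s : S => (s : V) + (x : V)) '' {s : S | (s : V) + (x : V) ∈ A} =
      A ∩ {y : V | y - (x : V) ∈ S} := by
    ext y
    constructor
    · rintro ⟨s, hs, rfl⟩
      refine ⟨hs, ?_⟩
      simp
    · rintro ⟨hy, hyS⟩
      exact ⟨⟨y - x, hyS⟩, by simpa using hy, by simp⟩
  rw [← himg, hiso.euclideanHausdorffMeasure_image,
    InnerProductSpace.euclideanHausdorffMeasure_eq_volume]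
  rfl

/-- Ellipsoids are measurable sets in the sense of the problem. -/
theorem ellipsoid_isMeas {n : ℕ} {A : Set (E n)} (h : IsEllipsoid A) : IsMeas A :=
  isMeas_of_isEllipsoid h

end Pool.Agent.Lib.MP_605763_gt
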