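import Pool.Agent.Lib.MP_605763_gt.XRay

open MeasureTheory Module

namespace Pool.Agent.Lib.MP_605763_gt

variable {n : ℕ}

/-- No nonzero quadratic form (symmetric operator) vanishes on all the orthogonal complements of
the members of `𝒮`. -/
def NoQuadric (𝒮 : Finset (Submodule ℝ (E n))) : Prop :=
  ∀ C : E n →ₗ[ℝ] E n, C.IsSymmetric → (∀ S ∈ 𝒮, ∀ x ∈ Sᗮ, inner ℝ (C x) x = 0) → C = 0

lemma integrableOn_of_bounded {F : Type*} [NormedAddCommGroup F] {A : Set (E n)}
    (hA : Bornology.IsBounded A) {g : E n → F} (hg : Continuous g) :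
    IntegrableOn g A volume :=
  (hg.continuousOn.integrableOn_compact hA.isCompact_closure).mono_set subset_closure

/-- the second moment operator of a bounded set -/
noncomputable def momentOp (A : Set (E n)) (hA : Bornology.IsBounded A) : E n →ₗ[ℝ] E n where
  toFun u := ∫ x in A, (inner ℝ x u : ℝ) • x
  map_add' u v := by
    rw [← integral_add (integrableOn_of_bounded hA (by fun_prop))
      (integrableOn_of_bounded hA (by fun_prop))]
    congr 1
    funext x
    rw [inner_add_right, add_smul]
  map_smul' c u := by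
    rw [RingHom.id_apply, ← integral_smul]
    congr 1
    funext x
    rw [inner_smul_right, mul_smul]

lemma inner_momentOp (A : Set (E n)) (hA : Bornology.IsBounded A) (u v : E n) :
    inner ℝ (momentOp A hA u) v = ∫ x in A, (inner ℝ x u : ℝ) * inner ℝ x v := by
  rw [real_inner_comm]
  change inner ℝ v (∫ x in A, (inner ℝ x u : ℝ) • x) = _
  rw [← integral_inner (integrableOn_of_bounded hA (by fun_prop))]
  congr 1
  funext x
  rw [inner_smul_right, real_inner_comm v x]

lemma isEllipsoid_props {A : Set (E n)} (hA : IsEllipsoid A) :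
    IsCompact A := by
  obtain ⟨f, rfl⟩ := hA
  exact (isCompact_closedBall 0 1).image (AffineMap.continuous_of_finiteDimensional f.toAffineMap)

lemma inner_proj_right (S : Submodule ℝ (E n)) {u : E n} (hu : u ∈ Sᗮ) (x : E n) :
    inner ℝ x u = inner ℝ ((Sᗮ.orthogonalProjectionOnto x : Sᗮ) : E n) u := by
  have h := Sᗮ.inner_orthogonalProjectionOnto_eq_of_mem_right ⟨u, hu⟩ x
  exact h.symm

theorem determinedAE_of_noQuadric [Nontrivial (E n)] {𝒮 : Finset (Submodule ℝ (E n))}
    (h : NoQuadric 𝒮) {A : Set (E n)} (hA : IsEllipsoid A) : DeterminedAE 𝒮 A := by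
  intro A' hA' hX
  have hAc := isEllipsoid_props hA
  have hAb : Bornology.IsBounded A := hAc.isBounded
  have hAm : MeasurableSet A := hAc.isClosed.measurableSet
  obtain ⟨hA'm, hA'b⟩ := hA'
  -- second moments
  have hproj2 : ∀ S ∈ 𝒮, ∀ u ∈ Sᗮ, ∀ v ∈ Sᗮ,
      ∫ x in A', (inner ℝ x u : ℝ) * inner ℝ x v = ∫ x in A, (inner ℝ x u : ℝ) * inner ℝ x v := by
    intro S hS u hu v hv
    have := integral_proj_eq S hAm.nullMeasurableSet hA'm (hX S hS)
      (fun y => (inner ℝ (y : E n) u : ℝ) * inner ℝ (y : E n) v) (by fun_prop)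
    simpa only [← inner_proj_right S hu, ← inner_proj_right S hv] using this
  have hproj1 : ∀ S ∈ 𝒮, ∀ u ∈ Sᗮ,
      ∫ x in A', (inner ℝ x u : ℝ) = ∫ x in A, (inner ℝ x u : ℝ) := by
    intro S hS u hu
    have := integral_proj_eq S hAm.nullMeasurableSet hA'm (hX S hS)
      (fun y => (inner ℝ (y : E n) u : ℝ)) (by fun_prop)
    simpa only [← inner_proj_right S hu] using this
  have hne : 𝒮.Nonempty := by
    by_contra hcon
    rw [Finset.not_nonempty_iff_eq_empty] at hcon
    have h1 : (LinearMap.id : E n →ₗ[ℝ] E n) = 0 :=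
      h LinearMap.id (fun x y => rfl) (by simp [hcon])
    obtain ⟨x, hx⟩ := exists_ne (0 : E n)
    exact hx (LinearMap.congr_fun h1 x)
  have hvol : volume A' = volume A := by
    obtain ⟨S, hS⟩ := hne
    rw [volume_eq_lintegral_xray S hA'm, volume_eq_lintegral_xray S hAm.nullMeasurableSet]
    exact lintegral_congr_ae (hX S hS)
  have hC : momentOp A' hA'b - momentOp A hAb = 0 := by
    refine h _ ?_ ?_
    · intro u v
      rw [real_inner_comm (((momentOp A' hA'b - momentOp A hAb)) v) u]
      rw [LinearMap.sub_apply, LinearMap.sub_apply, inner_sub_left, inner_sub_left,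
        inner_momentOp, inner_momentOp, inner_momentOp, inner_momentOp]
      simp only [mul_comm]
    · intro S hS x hx
      rw [LinearMap.sub_apply, inner_sub_left, inner_momentOp, inner_momentOp,
        hproj2 S hS x hx x hx, sub_self]
  have hsecond : ∀ u v : E n,
      ∫ x in A', (inner ℝ x u : ℝ) * inner ℝ x v = ∫ x in A, (inner ℝ x u : ℝ) * inner ℝ x v := by
    intro u v
    rw [← inner_momentOp A' hA'b, ← inner_momentOp A hAb, sub_eq_zero.1 hC]
  -- first moments
  have hfirst : ∀ u : E n, ∫ x in A', (inner ℝ x u : ℝ) = ∫ x in A, (inner ℝ x u : ℝ) := by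
    set b : E n := (∫ x in A', x) - ∫ x in A, x with hb
    have hbu : ∀ u, inner ℝ u b = (∫ x in A', (inner ℝ x u : ℝ)) - ∫ x in A, (inner ℝ x u : ℝ) := by
      intro u
      rw [hb, inner_sub_right, ← integral_inner (integrableOn_of_bounded hA'b (by fun_prop)),
        ← integral_inner (integrableOn_of_bounded hAb (by fun_prop))]
      simp only [real_inner_comm]
    have hb0 : b = 0 := by
      have h1 := h (LinearMap.toSpanSingleton ℝ (E n) b ∘ₗ (innerₛₗ ℝ b)) ?_ ?_
      · have h2 := LinearMap.congr_fun h1 b
        simp only [LinearMap.comp_apply, innerₛₗ_apply_apply, LinearMap.toSpanSingleton_apply,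
          LinearMap.zero_apply, smul_eq_zero, inner_self_eq_zero, or_self] at h2
        exact h2
      · intro u v
        simp only [LinearMap.comp_apply, innerₛₗ_apply_apply, LinearMap.toSpanSingleton_apply]
        rw [inner_smul_left, inner_smul_right, real_inner_comm b u]
        simp [mul_comm]
      · intro S hS x hx
        simp only [LinearMap.comp_apply, innerₛₗ_apply_apply, LinearMap.toSpanSingleton_apply]
        rw [real_inner_comm x b, hbu x, hproj1 S hS x hx, sub_self]
        simp
    intro u
    have := hbu u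
    rw [hb0, inner_zero_right] at this
    linarith
  -- the quadratic function
  obtain ⟨f, rfl⟩ := hA
  set L : E n →ₗ[ℝ] E n := (f.symm.linear : E n →ₗ[ℝ] E n) with hL
  set c : E n := f.symm 0 with hc
  have hf : ∀ x, f.symm x = L x + c := by
    intro x
    have := f.symm.map_vadd 0 x
    simpa [hL, hc] using this
  have hLadj : ∀ x w, (inner ℝ (L x) w : ℝ) = inner ℝ x (LinearMap.adjoint L w) := by
    intro x w
    rw [LinearMap.adjoint_inner_right]
  have hnorm : ∀ x, ‖L x‖ ^ 2 = ∑ i, (inner ℝ x (LinearMap.adjoint L (EuclideanSpace.single i 1)) : ℝ) *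
      inner ℝ x (LinearMap.adjoint L (EuclideanSpace.single i 1)) := by
    intro x
    rw [← (EuclideanSpace.basisFun (Fin n) ℝ).sum_sq_norm_inner_left (L x)]
    refine Finset.sum_congr rfl fun i _ => ?_
    rw [Real.norm_eq_abs, sq_abs, sq, ← hLadj, EuclideanSpace.basisFun_apply]
  set q : E n → ℝ := fun x => ‖f.symm x‖ ^ 2 - 1 with hq
  have hq2 : ∀ x, q x = (∑ i, (inner ℝ x (LinearMap.adjoint L (EuclideanSpace.single i 1)) : ℝ) *
      inner ℝ x (LinearMap.adjoint L (EuclideanSpace.single i 1))) +
      2 * inner ℝ x (LinearMap.adjoint L c) + (‖c‖ ^ 2 - 1) := by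
    intro x
    rw [hq]
    simp only
    rw [hf, norm_add_sq_real, hnorm, hLadj]
    ring
  have hqcont : Continuous q := by
    have : Continuous f.symm := AffineMap.continuous_of_finiteDimensional f.symm.toAffineMap
    fun_prop
  have hqint : ∫ x in A', q x = ∫ x in f '' Metric.closedBall 0 1, q x := by
    have hexp : ∀ B : Set (E n), Bornology.IsBounded B → ∫ x in B, q x =
        (∑ i, ∫ x in B, (inner ℝ x (LinearMap.adjoint L (EuclideanSpace.single i 1)) : ℝ) *
          inner ℝ x (LinearMap.adjoint L (EuclideanSpace.single i 1))) +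
        2 * (∫ x in B, inner ℝ x (LinearMap.adjoint L c)) + volume.real B * (‖c‖ ^ 2 - 1) := by
      intro B hB
      simp only [hq2]
      rw [integral_add, integral_add, integral_finsetSum, integral_const_mul, integral_const]
      · simp
      · intro i _
        exact integrableOn_of_bounded hB (by fun_prop)
      · exact integrableOn_of_bounded hB (by fun_prop)
      · exact integrableOn_of_bounded hB (by fun_prop)
      · exact integrableOn_of_bounded hB (by fun_prop)
      · exact integrableOn_of_bounded hB (by fun_prop)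
    rw [hexp _ hA'b, hexp _ hAb, hfirst, measureReal_def, measureReal_def, hvol]
    simp only [hsecond]
  have hAq : ∀ x, x ∈ f '' Metric.closedBall 0 1 ↔ q x ≤ 0 := by
    intro x
    have h1 : x ∈ f '' Metric.closedBall 0 1 ↔ ‖f.symm x‖ ≤ 1 := by
      constructor
      · rintro ⟨y, hy, rfl⟩
        simpa using hy
      · intro hx
        exact ⟨f.symm x, by simpa using hx, by simp⟩
    rw [h1, hq]
    simp only
    constructor
    · intro h2
      have := pow_le_one₀ (n := 2) (norm_nonneg _) h2
      linarith
    · intro h2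
      by_contra h3
      push Not at h3
      nlinarith
  set A := f '' Metric.closedBall 0 1 with hAdef
  have hint : ∀ B : Set (E n), Bornology.IsBounded B → IntegrableOn q B volume := fun B hB =>
    integrableOn_of_bounded hB hqcont
  have hA'fin : volume A' ≠ ⊤ := hA'b.measure_lt_top.ne
  -- split the two integrals
  have hs1 : ∫ x in A', q x = (∫ x in A' ∩ A, q x) + ∫ x in A' \ A, q x :=
    (integral_inter_add_sdiff₀ hAm.nullMeasurableSet (hint A' hA'b)).symm
  have hs2 : ∫ x in A, q x = (∫ x in A ∩ A', q x) + ∫ x in A \ A', q x :=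
    (integral_inter_add_sdiff₀ hA'm (hint A hAb)).symm
  have hdiffm : NullMeasurableSet (A' \ A) volume := hA'm.diff hAm.nullMeasurableSet
  have hdiffm2 : NullMeasurableSet (A \ A') volume := hAm.nullMeasurableSet.diff hA'm
  have hle : ∫ x in A' \ A, q x ≤ 0 := by
    have h1 : ∫ x in A' \ A, q x = ∫ x in A \ A', q x := by
      rw [Set.inter_comm] at hs2
      linarith
    rw [h1]
    refine setIntegral_nonpos_of_ae_restrict ?_
    rw [Filter.EventuallyLE, ae_restrict_iff'₀ hdiffm2]
    exact Filter.Eventually.of_forall fun x hx => (hAq x).1 hx.1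
  have hnonneg : 0 ≤ᵐ[volume.restrict (A' \ A)] q := by
    rw [Filter.EventuallyLE, ae_restrict_iff'₀ hdiffm]
    refine Filter.Eventually.of_forall fun x hx => ?_
    have : ¬ q x ≤ 0 := fun hcon => hx.2 ((hAq x).2 hcon)
    simp only [Pi.zero_apply]
    linarith
  have hzero : ∫ x in A' \ A, q x = 0 :=
    le_antisymm hle (integral_nonneg_of_ae hnonneg)
  have hnull : volume (A' \ A) = 0 := by
    have h1 := (setIntegral_eq_zero_iff_of_nonneg_ae hnonneg
      (hint _ (hA'b.subset Set.sdiff_subset))).1 hzero
    rw [Filter.EventuallyEq, ae_restrict_iff'₀ hdiffm] at h1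
    rw [measure_eq_zero_iff_ae_notMem]
    filter_upwards [h1] with x hx hx2
    exact hx2.2 ((hAq x).2 (hx hx2).le)
  have hinter : volume (A' ∩ A) = volume A' := by
    have := measure_inter_add_sdiff₀ (μ := volume) A' hAm.nullMeasurableSet
    rwa [hnull, add_zero] at this
  have hnull2 : volume (A \ A') = 0 := by
    have h1 := measure_inter_add_sdiff₀ (μ := volume) A hA'm
    rw [Set.inter_comm, hinter, ← hvol] at h1
    have h2 : volume A' + volume (A \ A') = volume A' + 0 := by rw [h1, add_zero]
    exact (ENNReal.add_right_inj hA'fin).1 h2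
  exact ae_eq_set.2 ⟨hnull, hnull2⟩

end Pool.Agent.Lib.MP_605763_gt
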