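import Pool.Agent.Lib.MP_605763_gt.Defs

open MeasureTheory Module

namespace Pool.Agent.Lib.MP_605763_gt

/-- Euclidean `n`-space. -/
abbrev E (n : ℕ) : Type := EuclideanSpace ℝ (Fin n)

variable {n : ℕ}

/-- The addition map `S × Sᗮ → E n`. -/
def addMap (S : Submodule ℝ (E n)) (p : S × Sᗮ) : E n := (p.1 : E n) + (p.2 : E n)

lemma measurePreserving_addMap (S : Submodule ℝ (E n)) :
    MeasurePreserving (addMap S) (volume.prod volume) volume := by
  have h1 : MeasurePreserving (fun p : S × Sᗮ => (WithLp.toLp 2 p : WithLp 2 (S × Sᗮ)))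
      (volume.prod volume) volume := WithLp.volume_preserving_toLp S Sᗮ
  have h2 := (S.orthogonalDecomposition.symm.measurePreserving).comp h1
  have h3 : addMap S = ⇑S.orthogonalDecomposition.symm ∘
      fun p : S × Sᗮ => (WithLp.toLp 2 p : WithLp 2 (S × Sᗮ)) := by
    funext p
    simp [addMap]
  rw [h3]
  exact h2

lemma ae_section_null (S : Submodule ℝ (E n)) {T : Set (E n)} (hT : volume T = 0) :
    ∀ᵐ x : Sᗮ, volume {s : S | (s : E n) + (x : E n) ∈ T} = 0 := by
  have h1 : (volume.prod volume : Measure (S × Sᗮ)) (addMap S ⁻¹' T) = 0 :=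
    (measurePreserving_addMap S).quasiMeasurePreserving.preimage_null hT
  have h2 : (volume.prod volume : Measure (Sᗮ × S)) (Prod.swap ⁻¹' (addMap S ⁻¹' T)) = 0 :=
    Measure.measurePreserving_swap.quasiMeasurePreserving.preimage_null h1
  have h3 := Measure.ae_ae_of_ae_prod (measure_eq_zero_iff_ae_notMem.1 h2)
  filter_upwards [h3] with x hx
  exact measure_eq_zero_iff_ae_notMem.2 hx

lemma xray_congr_ae (S : Submodule ℝ (E n)) {A B : Set (E n)} (h : A =ᵐ[volume] B) :
    xray S A =ᵐ[volume] xray S B := by
  have h1 : volume (symmDiff A B) = 0 := measure_symmDiff_eq_zero_iff.2 h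
  filter_upwards [ae_section_null S h1] with x hx
  unfold xray
  apply measure_congr
  apply measure_symmDiff_eq_zero_iff.1
  exact hx

lemma volume_inter_eq_of_measurable (S : Submodule ℝ (E n)) {A : Set (E n)}
    (hA : MeasurableSet A) {T : Set Sᗮ} (hT : MeasurableSet T) :
    volume (A ∩ Sᗮ.orthogonalProjectionOnto ⁻¹' T) = ∫⁻ x in T, xray S A x := by
  have hcont : Continuous fun y : E n => Sᗮ.orthogonalProjectionOnto y := by fun_prop
  have hmeas : MeasurableSet (A ∩ Sᗮ.orthogonalProjectionOnto ⁻¹' T) :=
    hA.inter (hcont.measurable hT)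
  rw [← (measurePreserving_addMap S).measure_preimage hmeas.nullMeasurableSet,
    Measure.prod_apply_symm ((measurePreserving_addMap S).measurable hmeas),
    ← lintegral_indicator hT]
  congr 1
  funext x
  have hproj : ∀ s : S, Sᗮ.orthogonalProjectionOnto ((s : E n) + (x : E n)) = x := by
    intro s
    have h1 : Sᗮ.orthogonalProjectionOnto (s : E n) = 0 := by
      rw [Submodule.orthogonalProjectionOnto_eq_zero_iff]
      simp
    rw [map_add, h1, zero_add]
    simp
  by_cases hx : x ∈ T
  · rw [Set.indicator_of_mem hx, xray]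
    congr 1
    ext s
    simp [addMap, hproj, hx]
  · rw [Set.indicator_of_notMem hx]
    have : (fun s : S => (s, x)) ⁻¹' (addMap S ⁻¹' (A ∩ Sᗮ.orthogonalProjectionOnto ⁻¹' T)) = ∅ := by
      ext s
      simp only [addMap, Set.mem_preimage, Set.mem_inter_iff, hproj, hx, and_false,
        Set.mem_empty_iff_false]
    rw [this, measure_empty]

lemma volume_inter_eq (S : Submodule ℝ (E n)) {A : Set (E n)} (hA : NullMeasurableSet A volume)
    {T : Set Sᗮ} (hT : MeasurableSet T) :
    volume (A ∩ Sᗮ.orthogonalProjectionOnto ⁻¹' T) = ∫⁻ x in T, xray S A x := by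
  obtain ⟨B, -, hB, hAB⟩ := hA.exists_measurable_superset_ae_eq
  rw [lintegral_congr_ae (ae_restrict_of_ae (xray_congr_ae S hAB.symm)),
    ← volume_inter_eq_of_measurable S hB hT]
  exact measure_congr (hAB.symm.inter (ae_eq_refl _))

lemma volume_eq_lintegral_xray (S : Submodule ℝ (E n)) {A : Set (E n)}
    (hA : NullMeasurableSet A volume) : volume A = ∫⁻ x, xray S A x := by
  have := volume_inter_eq S hA (T := Set.univ) MeasurableSet.univ
  simpa using this

/-- If the X-rays agree almost everywhere, then so do the projections of the measures. -/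
lemma map_restrict_eq (S : Submodule ℝ (E n)) {A A' : Set (E n)}
    (hA : NullMeasurableSet A volume) (hA' : NullMeasurableSet A' volume)
    (h : xray S A' =ᵐ[volume] xray S A) :
    (volume.restrict A').map Sᗮ.orthogonalProjectionOnto =
      (volume.restrict A).map Sᗮ.orthogonalProjectionOnto := by
  have hcont : Continuous fun y : E n => Sᗮ.orthogonalProjectionOnto y := by fun_prop
  ext T hT
  rw [Measure.map_apply hcont.measurable hT, Measure.map_apply hcont.measurable hT,
    Measure.restrict_apply (hcont.measurable hT), Measure.restrict_apply (hcont.measurable hT),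
    Set.inter_comm, Set.inter_comm _ A, volume_inter_eq S hA' hT, volume_inter_eq S hA hT]
  exact lintegral_congr_ae (ae_restrict_of_ae h)

/-- Integrals of continuous functions of the projection agree. -/
lemma integral_proj_eq (S : Submodule ℝ (E n)) {A A' : Set (E n)}
    (hA : NullMeasurableSet A volume) (hA' : NullMeasurableSet A' volume)
    (h : xray S A' =ᵐ[volume] xray S A) (g : Sᗮ → ℝ) (hg : Continuous g) :
    ∫ x in A', g (Sᗮ.orthogonalProjectionOnto x) = ∫ x in A, g (Sᗮ.orthogonalProjectionOnto x) := by
  have hcont : Continuous fun y : E n => Sᗮ.orthogonalProjectionOnto y := by fun_prop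
  rw [← integral_map hcont.measurable.aemeasurable hg.aestronglyMeasurable,
    ← integral_map hcont.measurable.aemeasurable hg.aestronglyMeasurable,
    map_restrict_eq S hA hA' h]

end Pool.Agent.Lib.MP_605763_gt
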